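import Pool.Agent.H60.Hg.Data

/-! The expressions checked on the leaves. Base functions: `0,1,2` Hessian numerators
`a11,a12,a22`, `3,4` gradient numerators, `5` is `Q`, `6` is `rho`, `7,8,9` the Hessian numerators
of `Q`, all plus `K_n (1+X+Y)^n`, and `10` is `1+X+Y`. -/

namespace H60Hg

open Ex

noncomputable section

/-- signed multiple -/
def sgn (s : Bool) (e : Ex) : Ex := Bool.rec (Ex.sub (Ex.c 0) e) e s

/-- `e + k * x`, without `x` if `k = 0` -/
def kaddE (e : Ex) (k : ℕ) (x : Ex) : Ex :=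
  Nat.rec e (fun k' _ => Ex.add e (Ex.mul (Ex.c (Int.ofNat (Nat.succ k'))) x)) k

/-- subtract one -/
def m1 (e : Ex) : Ex := Ex.sub e (Ex.c 1)

/-- the signed base functions -/
def off (k : ℕ) (K : ℤ) (n : ℕ) : Ex := sub (b k) (mul (c K) (pow (b 10) n))
def A11 : Ex := off 0 K27 27
def A12 : Ex := off 1 K27 27
def A22 : Ex := off 2 K27 27
def G1 : Ex := off 3 K14 14
def G2 : Ex := off 4 K14 14
def QQ : Ex := off 5 K13 13
def RH : Ex := off 6 K2 2
def Q11 : Ex := off 7 K15 15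
def Q12 : Ex := off 8 K15 15
def Q22 : Ex := off 9 K15 15

def eDet : Ex := sub (mul A11 A22) (mul A12 A12)
def eNDet : Ex := sub (mul A12 A12) (mul A11 A22)
def eT : Ex := add (mul G2 (sub (mul A11 G2) (mul (c 2) (mul A12 G1))))
  (mul A22 (mul G1 G1))
def eF : Ex := sub (mul QQ QQ) (mul (c 16777216) (pow RH 13))
def eNF : Ex := sub (mul (c 16777216) (pow RH 13)) (mul QQ QQ)
def eDQ : Ex := sub (mul Q11 Q22) (mul Q12 Q12)

end

end H60Hg
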