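import Pool.Agent.H60.Hg.Hom

/-! Polynomial expressions in base functions of given degrees, homogenisation, bounds. -/

open Polynomial Finset

namespace H60Hg

open H60Box

/-- polynomial expressions in the base functions -/
inductive Ex
  | b (k : ℕ)
  | c (m : ℤ)
  | add (e f : Ex)
  | sub (e f : Ex)
  | mul (e f : Ex)
  | pow (e : Ex) (k : ℕ)

namespace Ex

def deg (nn : ℕ → ℕ) : Ex → ℕ
  | b k => nn k
  | c _ => 0
  | add e f => max (e.deg nn) (f.deg nn)
  | sub e f => max (e.deg nn) (f.deg nn)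
  | mul e f => e.deg nn + f.deg nn
  | pow e k => k * e.deg nn

/-- evaluation -/
def ev {R : Type*} [CommRing R] (v : ℕ → R) : Ex → R
  | b k => v k
  | c m => m
  | add e f => e.ev v + f.ev v
  | sub e f => e.ev v - f.ev v
  | mul e f => e.ev v * f.ev v
  | pow e k => e.ev v ^ k

/-- homogenised evaluation -/
def hev {R : Type*} [CommRing R] (nn : ℕ → ℕ) (v : ℕ → R) (U : R) : Ex → R
  | b k => v k
  | c m => m
  | add e f => e.hev nn v U * U ^ (f.deg nn - e.deg nn) + f.hev nn v U * U ^ (e.deg nn - f.deg nn)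
  | sub e f => e.hev nn v U * U ^ (f.deg nn - e.deg nn) - f.hev nn v U * U ^ (e.deg nn - f.deg nn)
  | mul e f => e.hev nn v U * f.hev nn v U
  | pow e k => e.hev nn v U ^ k

def bd (nn B : ℕ → ℕ) (BU : ℕ) : Ex → ℕ
  | b k => B k
  | c m => m.natAbs
  | add e f => e.bd nn B BU * BU ^ (f.deg nn - e.deg nn) + f.bd nn B BU * BU ^ (e.deg nn - f.deg nn)
  | sub e f => e.bd nn B BU * BU ^ (f.deg nn - e.deg nn) + f.bd nn B BU * BU ^ (e.deg nn - f.deg nn)
  | mul e f => e.bd nn B BU * f.bd nn B BU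
  | pow e k => e.bd nn B BU ^ k

theorem hev_scale {R : Type*} [CommRing R] (nn : ℕ → ℕ) (q : ℕ → R) (t : R) (e : Ex) :
    e.hev nn (fun k => t ^ nn k * q k) t = t ^ e.deg nn * e.ev q := by
  induction e with
  | b k => simp [hev, ev, deg]
  | c m => simp [hev, ev, deg]
  | add e f ihe ihf =>
    simp only [hev, ev, deg, ihe, ihf]
    have h1 : t ^ max (e.deg nn) (f.deg nn) = t ^ e.deg nn * t ^ (f.deg nn - e.deg nn) := by
      rw [← pow_add]; congr 1; omega
    have h2 : t ^ max (e.deg nn) (f.deg nn) = t ^ f.deg nn * t ^ (e.deg nn - f.deg nn) := by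
      rw [← pow_add]; congr 1; omega
    rw [mul_add]
    nth_rewrite 1 [h1]
    rw [h2]
    ring
  | sub e f ihe ihf =>
    simp only [hev, ev, deg, ihe, ihf]
    have h1 : t ^ max (e.deg nn) (f.deg nn) = t ^ e.deg nn * t ^ (f.deg nn - e.deg nn) := by
      rw [← pow_add]; congr 1; omega
    have h2 : t ^ max (e.deg nn) (f.deg nn) = t ^ f.deg nn * t ^ (e.deg nn - f.deg nn) := by
      rw [← pow_add]; congr 1; omega
    rw [mul_sub]
    nth_rewrite 1 [h1]
    rw [h2]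
    ring
  | mul e f ihe ihf =>
    simp only [hev, ev, deg, ihe, ihf, pow_add]
    ring
  | pow e k ih =>
    simp only [hev, ev, deg, ih, mul_pow, ← pow_mul]
    rw [mul_comm (e.deg nn) k]

theorem map_hev {R S : Type*} [CommRing R] [CommRing S] (φ : R →+* S) (nn : ℕ → ℕ) (v : ℕ → R)
    (U : R) (e : Ex) : φ (e.hev nn v U) = e.hev nn (fun k => φ (v k)) (φ U) := by
  induction e with
  | b k => simp [hev]
  | c m => simp [hev]
  | add e f ihe ihf => simp [hev, ihe, ihf]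
  | sub e f ihe ihf => simp [hev, ihe, ihf]
  | mul e f ihe ihf => simp [hev, ihe, ihf]
  | pow e k ih => simp [hev, ih]

theorem map_ev {R S : Type*} [CommRing R] [CommRing S] (φ : R →+* S) (v : ℕ → R)
    (e : Ex) : φ (e.ev v) = e.ev (fun k => φ (v k)) := by
  induction e with
  | b k => simp [ev]
  | c m => simp [ev]
  | add e f ihe ihf => simp [ev, ihe, ihf]
  | sub e f ihe ihf => simp [ev, ihe, ihf]
  | mul e f ihe ihf => simp [ev, ihe, ihf]
  | pow e k ih => simp [ev, ih]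

theorem rep_hev {nn B : ℕ → ℕ} {v : ℕ → ℤ[X][X]} {U : ℤ[X][X]} {BU : ℕ}
    (hv : ∀ k, Rep (v k) (nn k) (nn k) (B k)) (hU : Rep U 1 1 BU) (e : Ex) :
    Rep (e.hev nn v U) (e.deg nn) (e.deg nn) (e.bd nn B BU) := by
  have key : ∀ (e f : Ex), Rep (e.hev nn v U) (e.deg nn) (e.deg nn) (e.bd nn B BU) →
      Rep (e.hev nn v U * U ^ (f.deg nn - e.deg nn)) (max (e.deg nn) (f.deg nn))
        (max (e.deg nn) (f.deg nn)) (e.bd nn B BU * BU ^ (f.deg nn - e.deg nn)) := by
    intro e f ih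
    exact (ih.mul (hU.pow _)).mono (by omega) (by omega) le_rfl
  induction e with
  | b k => simpa [hev, deg, bd] using hv k
  | c m => exact (Rep.intCast m).mono (Nat.zero_le _) (Nat.zero_le _) le_rfl
  | add e f ihe ihf =>
    have h2 := key f e ihf
    rw [max_comm] at h2
    exact (key e f ihe).add h2
  | sub e f ihe ihf =>
    have h2 := key f e ihf
    rw [max_comm] at h2
    exact (key e f ihe).sub h2
  | mul e f ihe ihf => exact ihe.mul ihf
  | pow e k ih => exact ih.pow k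

end Ex

/-! ### kernel versions -/

noncomputable section

/-- `k`-th entry of a list of polynomials -/
def knth (rs : List (List (List ℕ))) : ℕ → List (List ℕ) :=
  List.rec (fun _ => []) (fun r _ ih k => Nat.rec r (fun k' _ => ih k') k) rs

/-- `k`-th entry of a list of numbers -/
def knthN (rs : List ℕ) : ℕ → ℕ :=
  List.rec (fun _ => 0) (fun r _ ih k => Nat.rec r (fun k' _ => ih k') k) rs

/-- evaluate the integer first -/
def kseqI {α : Type} (z : ℤ) (f : ℤ → α) : α :=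
  Int.rec (fun n => kseq n (fun n' => f (Int.ofNat n')))
    (fun n => kseq n (fun n' => f (Int.negSucc n'))) z

def kI2 (op : ℤ → ℤ → ℤ) (a b : ℤ) : ℤ := kseqI a (fun a' => kseqI b (fun b' => op a' b'))

def kpowI (z : ℤ) (k : ℕ) : ℤ := Int.rec (fun n => Int.ofNat (Nat.pow n k))
  (fun n => Nat.rec 1 (fun _ ih => kI2 Int.mul ih (Int.negSucc n)) k) z

/-- multiply by `U^d` without work if `d = 0` -/
def kmulU (a : ℤ) (U d : ℕ) : ℤ :=
  Nat.rec a (fun d' _ => kI2 Int.mul a (Int.ofNat (Nat.pow U (Nat.succ d')))) d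

namespace Ex

def kdeg (nn : ℕ → ℕ) : Ex → ℕ := fun e =>
  Ex.rec (fun k => nn k) (fun _ => 0) (fun _ _ a b => Nat.add a (Nat.sub b a))
    (fun _ _ a b => Nat.add a (Nat.sub b a)) (fun _ _ a b => Nat.add a b)
    (fun _ k a => Nat.mul k a) e

def kbd (nn B : ℕ → ℕ) (BU : ℕ) : Ex → ℕ := fun e =>
  Ex.rec (fun k => B k) (fun m => Int.natAbs m)
    (fun e f a b => Nat.add (Nat.mul a (Nat.pow BU (Nat.sub (kdeg nn f) (kdeg nn e))))
      (Nat.mul b (Nat.pow BU (Nat.sub (kdeg nn e) (kdeg nn f)))))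
    (fun e f a b => Nat.add (Nat.mul a (Nat.pow BU (Nat.sub (kdeg nn f) (kdeg nn e))))
      (Nat.mul b (Nat.pow BU (Nat.sub (kdeg nn e) (kdeg nn f)))))
    (fun _ _ a b => Nat.mul a b) (fun _ k a => Nat.pow a k) e

def khev (nn : ℕ → ℕ) (v : ℕ → ℤ) (U : ℕ) : Ex → ℤ := fun e =>
  Ex.rec (fun k => v k) (fun m => m)
    (fun e f a b => kI2 Int.add (kmulU a U (Nat.sub (kdeg nn f) (kdeg nn e)))
      (kmulU b U (Nat.sub (kdeg nn e) (kdeg nn f))))
    (fun e f a b => kI2 Int.sub (kmulU a U (Nat.sub (kdeg nn f) (kdeg nn e)))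
      (kmulU b U (Nat.sub (kdeg nn e) (kdeg nn f))))
    (fun _ _ a b => kI2 Int.mul a b) (fun _ k a => kpowI a k) e

end Ex

end

theorem kseqI_eq {α : Type} (z : ℤ) (f : ℤ → α) : kseqI z f = f z := by
  cases z with
  | ofNat n => show kseq n (fun n' => f (Int.ofNat n')) = _; rw [kseq_eq]
  | negSucc n => show kseq n (fun n' => f (Int.negSucc n')) = _; rw [kseq_eq]

theorem kI2_eq (op : ℤ → ℤ → ℤ) (a b : ℤ) : kI2 op a b = op a b := by
  unfold kI2; rw [kseqI_eq, kseqI_eq]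

theorem kpowI_eq (z : ℤ) (k : ℕ) : kpowI z k = z ^ k := by
  cases z with
  | ofNat n =>
    show ((n ^ k : ℕ) : ℤ) = (n : ℤ) ^ k
    push_cast; rfl
  | negSucc n =>
    induction k with
    | zero => rw [pow_zero]; rfl
    | succ k ih =>
      show kI2 Int.mul (kpowI (Int.negSucc n) k) (Int.negSucc n) = _
      rw [kI2_eq, ih, pow_succ]; rfl

theorem kmulU_eq (a : ℤ) (U d : ℕ) : kmulU a U d = a * (U : ℤ) ^ d := by
  rcases d with _ | d
  · rw [pow_zero, mul_one]; rfl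
  · show kI2 Int.mul a (Int.ofNat (Nat.pow U (Nat.succ d))) = _
    rw [kI2_eq]
    show a * ((U ^ (d + 1) : ℕ) : ℤ) = _
    push_cast; rfl

namespace Ex

theorem kdeg_eq (nn : ℕ → ℕ) (e : Ex) : e.kdeg nn = e.deg nn := by
  induction e with
  | b k => rfl
  | c m => rfl
  | add e f ihe ihf =>
    show e.kdeg nn + (f.kdeg nn - e.kdeg nn) = max (e.deg nn) (f.deg nn)
    rw [ihe, ihf]; omega
  | sub e f ihe ihf =>
    show e.kdeg nn + (f.kdeg nn - e.kdeg nn) = max (e.deg nn) (f.deg nn)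
    rw [ihe, ihf]; omega
  | mul e f ihe ihf =>
    show e.kdeg nn + f.kdeg nn = e.deg nn + f.deg nn
    rw [ihe, ihf]
  | pow e k ih =>
    show k * e.kdeg nn = k * e.deg nn
    rw [ih]

theorem kbd_eq (nn B : ℕ → ℕ) (BU : ℕ) (e : Ex) : e.kbd nn B BU = e.bd nn B BU := by
  induction e with
  | b k => rfl
  | c m => rfl
  | add e f ihe ihf =>
    show e.kbd nn B BU * BU ^ (f.kdeg nn - e.kdeg nn)
      + f.kbd nn B BU * BU ^ (e.kdeg nn - f.kdeg nn) = _
    rw [ihe, ihf, kdeg_eq, kdeg_eq]; rfl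
  | sub e f ihe ihf =>
    show e.kbd nn B BU * BU ^ (f.kdeg nn - e.kdeg nn)
      + f.kbd nn B BU * BU ^ (e.kdeg nn - f.kdeg nn) = _
    rw [ihe, ihf, kdeg_eq, kdeg_eq]; rfl
  | mul e f ihe ihf =>
    show e.kbd nn B BU * f.kbd nn B BU = _
    rw [ihe, ihf]; rfl
  | pow e k ih =>
    show (e.kbd nn B BU) ^ k = _
    rw [ih]; rfl

theorem khev_eq (nn : ℕ → ℕ) (v : ℕ → ℤ) (U : ℕ) (e : Ex) :
    e.khev nn v U = e.hev nn v (U : ℤ) := by
  induction e with
  | b k => rfl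
  | c m => exact (Int.cast_id).symm
  | add e f ihe ihf =>
    show kI2 Int.add (kmulU (e.khev nn v U) U (f.kdeg nn - e.kdeg nn))
      (kmulU (f.khev nn v U) U (e.kdeg nn - f.kdeg nn)) = _
    rw [kI2_eq, ihe, ihf, kdeg_eq, kdeg_eq, kmulU_eq, kmulU_eq]; rfl
  | sub e f ihe ihf =>
    show kI2 Int.sub (kmulU (e.khev nn v U) U (f.kdeg nn - e.kdeg nn))
      (kmulU (f.khev nn v U) U (e.kdeg nn - f.kdeg nn)) = _
    rw [kI2_eq, ihe, ihf, kdeg_eq, kdeg_eq, kmulU_eq, kmulU_eq]; rfl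
  | mul e f ihe ihf =>
    show kI2 Int.mul (e.khev nn v U) (f.khev nn v U) = _
    rw [kI2_eq, ihe, ihf]; rfl
  | pow e k ih =>
    show kpowI (e.khev nn v U) k = _
    rw [kpowI_eq, ih]; rfl

end Ex

end H60Hg
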