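import Pool.Agent.H60.Hg.Cert

/-! From the checks on the leaves to the inequalities. -/

namespace H60Hg

open Ex

/-- The inequalities wanted at one point. -/
structure Good (a11 a12 a22 g1 g2 Q r q11 q12 q22 : ℝ) : Prop where
  core : Q ^ 2 ≤ 16777216 * r ^ 13 → a11 * a22 - a12 ^ 2 < 0
  pos : 0 < Q → 16777216 * r ^ 13 ≤ Q ^ 2 →
    0 < a11 * g2 ^ 2 - 2 * a12 * g1 * g2 + a22 * g1 ^ 2 ∨
    (0 < a11 * a22 - a12 ^ 2 ∧ 0 < a11 ∧ (g1 ≠ 0 ∨ g2 ≠ 0 ∨ q11 * q22 - q12 ^ 2 ≠ 0))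
  neg : Q < 0 → 16777216 * r ^ 13 ≤ Q ^ 2 →
    a11 * g2 ^ 2 - 2 * a12 * g1 * g2 + a22 * g1 ^ 2 < 0 ∨
    (0 < a11 * a22 - a12 ^ 2 ∧ a11 < 0 ∧ (g1 ≠ 0 ∨ g2 ≠ 0 ∨ q11 * q22 - q12 ^ 2 ≠ 0))

/-- the inequalities at the point `p` of the unit square -/
def GoodAt (p : ℝ × ℝ) : Prop :=
  Good (A11.ev (bt.val p.1 p.2)) (A12.ev (bt.val p.1 p.2)) (A22.ev (bt.val p.1 p.2))
    (G1.ev (bt.val p.1 p.2)) (G2.ev (bt.val p.1 p.2)) (QQ.ev (bt.val p.1 p.2))
    (RH.ev (bt.val p.1 p.2)) (Q11.ev (bt.val p.1 p.2)) (Q12.ev (bt.val p.1 p.2))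
    (Q22.ev (bt.val p.1 p.2))

/-- types of leaves -/
inductive Lf
  | A
  | B (s : Bool) (K2 : ℕ)
  | B' (s : Bool) (m K1 K2 : ℕ)
  | CG (s : Bool) (x y : ℤ)
  | CQ (s t : Bool)

/-- the expressions which have to be nonnegative -/
def exs : Lf → List Ex
  | .A => [m1 eNDet, m1 eNF]
  | .B s K2 => [m1 (sgn s QQ), m1 eF, m1 (kaddE (sgn s eT) K2 eNF)]
  | .B' s m K1 K2 => [m1 (sgn s QQ), m1 (kaddE (mul (c (Int.ofNat m)) eNDet) K1 eF),
    m1 (kaddE (sgn s eT) K2 eNF)]
  | .CG s x y => [m1 (sgn s QQ), m1 eF, m1 eDet, m1 (sgn s A11), m1 (add (mul (c x) G1) (mul (c y) G2))]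
  | .CQ s t => [m1 (sgn s QQ), m1 eF, m1 eDet, m1 (sgn s A11), m1 (sgn t eDQ)]

section ev
variable (v : ℕ → ℝ)

theorem ev_m1 (e : Ex) : (m1 e).ev v = e.ev v - 1 := by
  show e.ev v - ((1 : ℤ) : ℝ) = _
  simp

theorem ev_kaddE (e : Ex) (k : ℕ) (x : Ex) : (kaddE e k x).ev v = e.ev v + k * x.ev v := by
  cases k with
  | zero => show e.ev v = _; simp
  | succ k =>
    show e.ev v + ((Int.ofNat (k + 1) : ℤ) : ℝ) * x.ev v = _
    simp

theorem ev_cm (m : ℕ) (e : Ex) : (mul (c (Int.ofNat m)) e).ev v = m * e.ev v := by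
  show ((Int.ofNat m : ℤ) : ℝ) * e.ev v = _
  simp

theorem ev_sgn (s : Bool) (e : Ex) : (sgn s e).ev v = (if s then 1 else -1) * e.ev v := by
  cases s with
  | false => show ((0 : ℤ) : ℝ) - e.ev v = _; simp
  | true => show e.ev v = _; simp

theorem ev_eDet : eDet.ev v = A11.ev v * A22.ev v - A12.ev v ^ 2 := by
  simp only [eDet, Ex.ev]; ring

theorem ev_eNDet : eNDet.ev v = -(A11.ev v * A22.ev v - A12.ev v ^ 2) := by
  simp only [eNDet, Ex.ev]; ring

theorem ev_eDQ : eDQ.ev v = Q11.ev v * Q22.ev v - Q12.ev v ^ 2 := by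
  simp only [eDQ, Ex.ev]; ring

theorem ev_eT : eT.ev v = A11.ev v * G2.ev v ^ 2 - 2 * A12.ev v * G1.ev v * G2.ev v
    + A22.ev v * G1.ev v ^ 2 := by
  simp only [eT, Ex.ev]; push_cast; ring

theorem ev_eF : eF.ev v = QQ.ev v ^ 2 - 16777216 * RH.ev v ^ 13 := by
  simp only [eF, Ex.ev]; push_cast; ring

theorem ev_eNF : eNF.ev v = -(QQ.ev v ^ 2 - 16777216 * RH.ev v ^ 13) := by
  simp only [eNF, Ex.ev]; push_cast; ring

end ev

theorem pos_of_comb {D t : ℝ} (h : 0 < D + t) (ht : t ≤ 0) : 0 < D := by linarith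

theorem mem0 {e : Ex} {l : List Ex} : e ∈ e :: l := List.mem_cons_self
theorem mem1 {a e : Ex} {l : List Ex} : e ∈ a :: e :: l := List.mem_cons_of_mem _ mem0
theorem mem2 {a b e : Ex} {l : List Ex} : e ∈ a :: b :: e :: l := List.mem_cons_of_mem _ mem1
theorem mem3 {a b c e : Ex} {l : List Ex} : e ∈ a :: b :: c :: e :: l := List.mem_cons_of_mem _ mem2
theorem mem4 {a b c d e : Ex} {l : List Ex} : e ∈ a :: b :: c :: d :: e :: l :=
  List.mem_cons_of_mem _ mem3

theorem leaf_good (l : Lf) {p : ℝ × ℝ} (h : ∀ e ∈ exs l, 0 ≤ e.ev (bt.val p.1 p.2)) :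
    GoodAt p := by
  unfold GoodAt
  set v := bt.val p.1 p.2 with hv
  clear_value v
  cases l with
  | A =>
    have h1 := h _ mem0
    have h2 := h _ mem1
    rw [ev_m1, ev_eNDet] at h1
    rw [ev_m1, ev_eNF] at h2
    exact ⟨fun _ => by linarith, fun _ hF => by linarith, fun _ hF => by linarith⟩
  | B s K2 =>
    have h1 := h _ mem0
    have h2 := h _ mem1
    have h3 := h _ mem2
    rw [ev_m1, ev_sgn] at h1
    rw [ev_m1, ev_eF] at h2
    rw [ev_m1, ev_kaddE, ev_sgn, ev_eT, ev_eNF] at h3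
    have hK : (0 : ℝ) ≤ K2 := Nat.cast_nonneg _
    refine ⟨fun hF => by linarith, fun hQ hF => ?_, fun hQ hF => ?_⟩
    · have h4 : (K2 : ℝ) * -(QQ.ev v ^ 2 - 16777216 * RH.ev v ^ 13) ≤ 0 :=
        mul_nonpos_of_nonneg_of_nonpos hK (by linarith)
      cases s with
      | false => simp at h1; linarith
      | true =>
        left
        simp only [if_true, one_mul] at h3
        linarith
    · have h4 : (K2 : ℝ) * -(QQ.ev v ^ 2 - 16777216 * RH.ev v ^ 13) ≤ 0 :=
        mul_nonpos_of_nonneg_of_nonpos hK (by linarith)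
      cases s with
      | false =>
        left
        simp only [Bool.false_eq_true, if_false] at h3
        linarith
      | true => simp at h1; linarith
  | B' s m K1 K2 =>
    have h1 := h _ mem0
    have h2 := h _ mem1
    have h3 := h _ mem2
    rw [ev_m1, ev_sgn] at h1
    rw [ev_m1, ev_kaddE, ev_cm, ev_eNDet, ev_eF] at h2
    rw [ev_m1, ev_kaddE, ev_sgn, ev_eT, ev_eNF] at h3
    have hK : (0 : ℝ) ≤ K2 := Nat.cast_nonneg _
    have hK1 : (0 : ℝ) ≤ K1 := Nat.cast_nonneg _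
    refine ⟨fun hF => ?_, fun hQ hF => ?_, fun hQ hF => ?_⟩
    · have h4 : (K1 : ℝ) * (QQ.ev v ^ 2 - 16777216 * RH.ev v ^ 13) ≤ 0 :=
        mul_nonpos_of_nonneg_of_nonpos hK1 (by linarith)
      by_contra hc
      have h5 : (m : ℝ) * -(A11.ev v * A22.ev v - A12.ev v ^ 2) ≤ 0 :=
        mul_nonpos_of_nonneg_of_nonpos (Nat.cast_nonneg _) (by linarith)
      linarith
    · have h4 : (K2 : ℝ) * -(QQ.ev v ^ 2 - 16777216 * RH.ev v ^ 13) ≤ 0 :=
        mul_nonpos_of_nonneg_of_nonpos hK (by linarith)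
      cases s with
      | false => simp at h1; linarith
      | true =>
        left
        simp only [if_true, one_mul] at h3
        linarith
    · have h4 : (K2 : ℝ) * -(QQ.ev v ^ 2 - 16777216 * RH.ev v ^ 13) ≤ 0 :=
        mul_nonpos_of_nonneg_of_nonpos hK (by linarith)
      cases s with
      | false =>
        left
        simp only [Bool.false_eq_true, if_false] at h3
        linarith
      | true => simp at h1; linarith
  | CG s x y =>
    have h1 := h _ mem0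
    have h2 := h _ mem1
    have h3 := h _ mem2
    have h4 := h _ mem3
    have h5 := h _ mem4
    rw [ev_m1, ev_sgn] at h1 h4
    rw [ev_m1, ev_eF] at h2
    rw [ev_m1, ev_eDet] at h3
    rw [ev_m1] at h5
    have hg : G1.ev v ≠ 0 ∨ G2.ev v ≠ 0 ∨ Q11.ev v * Q22.ev v - Q12.ev v ^ 2 ≠ 0 := by
      by_contra hc
      push Not at hc
      obtain ⟨c1, c2, -⟩ := hc
      simp only [Ex.ev] at h5
      rw [c1, c2] at h5
      norm_num at h5
    refine ⟨fun hF => by linarith, fun hQ hF => ?_, fun hQ hF => ?_⟩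
    · cases s with
      | false => simp at h1; linarith
      | true =>
        simp only [if_true, one_mul] at h4
        exact Or.inr ⟨by linarith, by linarith, hg⟩
    · cases s with
      | false =>
        simp only [Bool.false_eq_true, if_false] at h4
        exact Or.inr ⟨by linarith, by linarith, hg⟩
      | true => simp at h1; linarith
  | CQ s t =>
    have h1 := h _ mem0
    have h2 := h _ mem1
    have h3 := h _ mem2
    have h4 := h _ mem3
    have h5 := h _ mem4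
    rw [ev_m1, ev_sgn] at h1 h4 h5
    rw [ev_m1, ev_eF] at h2
    rw [ev_m1, ev_eDet] at h3
    rw [ev_eDQ] at h5
    have hg : G1.ev v ≠ 0 ∨ G2.ev v ≠ 0 ∨ Q11.ev v * Q22.ev v - Q12.ev v ^ 2 ≠ 0 := by
      by_contra hc
      push Not at hc
      obtain ⟨-, -, c3⟩ := hc
      rw [c3] at h5
      norm_num at h5
    refine ⟨fun hF => by linarith, fun hQ hF => ?_, fun hQ hF => ?_⟩
    · cases s with
      | false => simp at h1; linarith
      | true =>
        simp only [if_true, one_mul] at h4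
        exact Or.inr ⟨by linarith, by linarith, hg⟩
    · cases s with
      | false =>
        simp only [Bool.false_eq_true, if_false] at h4
        exact Or.inr ⟨by linarith, by linarith, hg⟩
      | true => simp at h1; linarith

/-! ### the table is valid -/

noncomputable section

/-- kernel length -/
def klen (l : List (List ℕ)) : ℕ := List.rec 0 (fun _ _ ih => Nat.succ ih) l
def ksum1 (l : List ℕ) : ℕ := List.rec 0 (fun a _ ih => Nat.add a ih) l
def ksum (l : List (List ℕ)) : ℕ := List.rec 0 (fun a _ ih => Nat.add (ksum1 a) ih) l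

def kvalid (k : ℕ) : Bool :=
  and (Nat.beq (klen (bt.rr k)) (Nat.succ (bt.nn k)))
    (and (Nat.ble (Nat.succ (bt.nn k)) 32) (Nat.ble (ksum (bt.rr k)) (bt.bb k)))

end

theorem klen_eq (l : List (List ℕ)) : klen l = l.length := by
  induction l with
  | nil => rfl
  | cons a l ih => show Nat.succ (klen l) = _; rw [ih]; rfl

theorem ksum1_eq (l : List ℕ) : ksum1 l = gsum1 l := by
  induction l with
  | nil => rfl
  | cons a l ih => show a + ksum1 l = _; rw [ih]; rfl

theorem ksum_eq (l : List (List ℕ)) : ksum l = gsum l := by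
  induction l with
  | nil => rfl
  | cons a l ih => show ksum1 a + ksum l = _; rw [ih, ksum1_eq]; rfl

theorem kvalid_spec {k : ℕ} (h : kvalid k = true) :
    ((bt.rr k).length = bt.nn k + 1 ∧ bt.nn k < 32) ∧ gsum (bt.rr k) ≤ bt.bb k := by
  unfold kvalid at h
  rw [Bool.and_eq_true, Bool.and_eq_true] at h
  obtain ⟨h1, h2, h3⟩ := h
  rw [← klen_eq, ← ksum_eq]
  exact ⟨⟨Nat.eq_of_beq_eq_true h1, Nat.le_of_ble_eq_true h2⟩, Nat.le_of_ble_eq_true h3⟩

theorem kv0 : kvalid 0 = true := by decide +kernel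
theorem kv1 : kvalid 1 = true := by decide +kernel
theorem kv2 : kvalid 2 = true := by decide +kernel
theorem kv3 : kvalid 3 = true := by decide +kernel
theorem kv4 : kvalid 4 = true := by decide +kernel
theorem kv5 : kvalid 5 = true := by decide +kernel
theorem kv6 : kvalid 6 = true := by decide +kernel
theorem kv7 : kvalid 7 = true := by decide +kernel
theorem kv8 : kvalid 8 = true := by decide +kernel
theorem kv9 : kvalid 9 = true := by decide +kernel
theorem kv10 : kvalid 10 = true := by decide +kernel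

theorem rr_big (k : ℕ) : bt.rr (k + 11) = [] := rfl
theorem nn_big (k : ℕ) : bt.nn (k + 11) = 0 := rfl

theorem valid_cases (k : ℕ) : kvalid k = true ∨ (bt.rr k = [] ∧ bt.nn k = 0) := by
  rcases k with _ | _ | _ | _ | _ | _ | _ | _ | _ | _ | _ | k
  · exact Or.inl kv0
  · exact Or.inl kv1
  · exact Or.inl kv2
  · exact Or.inl kv3
  · exact Or.inl kv4
  · exact Or.inl kv5
  · exact Or.inl kv6
  · exact Or.inl kv7
  · exact Or.inl kv8
  · exact Or.inl kv9
  · exact Or.inl kv10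
  · exact Or.inr ⟨rr_big k, nn_big k⟩

theorem bt_valid : bt.Valid := by
  constructor
  · intro k
    rcases valid_cases k with h | h
    · exact Or.inl (kvalid_spec h).1
    · exact Or.inr h
  · intro k
    rcases valid_cases k with h | h
    · exact (kvalid_spec h).2
    · rw [h.1]; exact Nat.zero_le _

/-- one leaf -/
theorem leaf {α D β E : ℕ} (l : Lf) (hα : α < D) (hβ : β < E)
    (h : kexs bt α D β E (exs l) = true) : ∀ p ∈ leafBox α D β E, GoodAt p := by
  intro p hp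
  exact leaf_good l (fun e he => kexs_sound bt_valid hα hβ h e he p hp)

theorem icc_split {α D : ℕ} (hD : 0 < D) {x : ℝ} (h : x ∈ Set.Icc ((α : ℝ) / D) ((α + 1) / D)) :
    x ∈ Set.Icc (((2 * α : ℕ) : ℝ) / (2 * D : ℕ)) (((2 * α : ℕ) + 1) / (2 * D : ℕ)) ∨
    x ∈ Set.Icc (((2 * α + 1 : ℕ) : ℝ) / (2 * D : ℕ)) (((2 * α + 1 : ℕ) + 1) / (2 * D : ℕ)) := by
  have hD' : (0 : ℝ) < D := by exact_mod_cast hD
  obtain ⟨h1, h2⟩ := h
  rw [div_le_iff₀ hD'] at h1
  rw [le_div_iff₀ hD'] at h2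
  have h2D : (0 : ℝ) < (2 * D : ℕ) := by push_cast; positivity
  simp only [Set.mem_Icc, div_le_iff₀ h2D, le_div_iff₀ h2D]
  push_cast
  rcases le_total (x * (2 * D)) (2 * α + 1) with h3 | h3
  · left; constructor <;> nlinarith
  · right; constructor <;> nlinarith

theorem splitX {G : ℝ × ℝ → Prop} {α D β E a b D2 : ℕ} (ha : a = 2 * α) (hb : b = 2 * α + 1)
    (hD : D2 = 2 * D) (hD0 : 0 < D) (h1 : ∀ p ∈ leafBox a D2 β E, G p)
    (h2 : ∀ p ∈ leafBox b D2 β E, G p) : ∀ p ∈ leafBox α D β E, G p := by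
  subst ha hb hD
  rintro p ⟨hx, hy⟩
  rcases icc_split hD0 hx with h | h
  · exact h1 p ⟨h, hy⟩
  · exact h2 p ⟨h, hy⟩

theorem splitY {G : ℝ × ℝ → Prop} {α D β E a b E2 : ℕ} (ha : a = 2 * β) (hb : b = 2 * β + 1)
    (hE : E2 = 2 * E) (hE0 : 0 < E) (h1 : ∀ p ∈ leafBox α D a E2, G p)
    (h2 : ∀ p ∈ leafBox α D b E2, G p) : ∀ p ∈ leafBox α D β E, G p := by
  subst ha hb hE
  rintro p ⟨hx, hy⟩
  rcases icc_split hE0 hy with h | h
  · exact h1 p ⟨hx, h⟩
  · exact h2 p ⟨hx, h⟩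

end H60Hg
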