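import Pool.Agent.H60.Box.Check

/-! Fast evaluation of homogenised bivariate polynomials in the kernel: `ghom` and pairing. -/

open Polynomial Finset

namespace H60Box

section generic

variable {R S : Type*} [CommSemiring R] [CommSemiring S]

/-- `∑ r_j y^j v^(n-j)`, `n + 1` the length of the list -/
def ghom : List R → R → R → R
  | [], _, _ => 0
  | r :: rs, y, v => r * v ^ rs.length + y * ghom rs y v

/-- pair consecutive entries -/
def pr (y v : R) : List R → List R
  | [] => []
  | [a] => [a]
  | a :: b :: s => (a * v + b * y) :: pr y v s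

theorem length_pr (y v : R) (k : ℕ) : ∀ rs : List R, rs.length = 2 * k → (pr y v rs).length = k := by
  induction k with
  | zero =>
    intro rs h
    have : rs = [] := by simpa using h
    subst this; simp [pr]
  | succ k ih =>
    intro rs h
    match rs, h with
    | a :: b :: s, h =>
      simp only [pr, List.length_cons]
      rw [ih s (by simp at h; omega)]

theorem ghom_pr (y v : R) (k : ℕ) : ∀ rs : List R, rs.length = 2 * k →
    ghom rs y v = ghom (pr y v rs) (y * y) (v * v) := by
  induction k with
  | zero =>
    intro rs h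
    have : rs = [] := by simpa using h
    subst this; simp [pr, ghom]
  | succ k ih =>
    intro rs h
    match rs, h with
    | a :: b :: s, h =>
      have hs : s.length = 2 * k := by simp at h; omega
      simp only [pr, ghom, List.length_cons]
      rw [ih s hs, length_pr y v k s hs, hs]
      have e : v ^ (2 * k + 1) = v * (v * v) ^ k := by rw [pow_succ, pow_mul, pow_two]; ring
      have e2 : v ^ (2 * k) = (v * v) ^ k := by rw [pow_mul, pow_two]
      rw [e, e2]
      ring

theorem gval_eq_ghom_aux (rows : List (List ℕ)) (T : List R) (y v : R) (n k i : ℕ)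
    (h : rows.length = k) (hk : i + k = n + 1) :
    gval rows T (gT y v n k i) = y ^ i * ghom (rows.map (fun r => gdot r T)) y v := by
  induction rows generalizing k i with
  | nil => simp [gval, ghom]
  | cons r rs ih =>
    rcases k with _ | k
    · simp at h
    · simp only [List.length_cons, Nat.add_right_cancel_iff] at h
      simp only [gT, gval, List.map_cons, ghom, List.length_map]
      rw [ih k (i + 1) h (by omega), pow_succ]
      have : n - i = rs.length := by omega
      rw [this]
      ring

theorem gval_eq_ghom (rows : List (List ℕ)) (T : List R) (y v : R) (n : ℕ)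
    (h : rows.length = n + 1) :
    gval rows T (gTl y v n) = ghom (rows.map (fun r => gdot r T)) y v := by
  have := gval_eq_ghom_aux rows T y v n (n + 1) 0 h (by omega)
  rw [gTl, this]; simp

end generic

/-! ### kernel versions -/

noncomputable section kernel

/-- evaluate `n` to a literal first -/
def kseq {α : Type} (n : ℕ) (f : ℕ → α) : α := Nat.rec (f 0) (fun k _ => f (Nat.succ k)) n

/-- evaluate all entries of the list first -/
def kforce {α : Type} (l : List ℕ) : (List ℕ → α) → α :=
  List.rec (fun f => f []) (fun a _ ih f => kseq a (fun a' => ih (fun l' => f (a' :: l')))) l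

/-- pairing; the flag says that an entry is waiting -/
def kpr (y v : ℕ) (s : List ℕ) : Bool → ℕ → List ℕ :=
  List.rec (fun h c => Bool.rec [] [c] h)
    (fun a _ ih h c => Bool.rec (ih true a)
      (kseq (Nat.add (Nat.mul c v) (Nat.mul a y)) (fun t => t :: ih false 0)) h) s

def khead (s : List ℕ) : ℕ := List.rec 0 (fun a _ _ => a) s
def ktail (s : List ℕ) : List ℕ := List.rec [] (fun _ s _ => s) s

/-- dot products with `T` -/
def kdots (T : List ℕ) (rows : List (List ℕ)) : List ℕ :=
  List.rec [] (fun r _ ih => kseq (kdot r T) (fun t => t :: ih)) rows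

/-- `ghom rs y v` for `rs.length = n + 1`, `n < 2^fuel` -/
def khb (fuel : ℕ) : List ℕ → ℕ → ℕ → ℕ → ℕ :=
  Nat.rec (fun rs _ _ _ => khead rs)
    (fun _ ih rs y v n => Nat.rec (khead rs)
      (fun _ _ => kseq (Nat.mul y y) (fun y2 => kseq (Nat.mul v v) (fun v2 =>
        Nat.rec
          (Nat.add (Nat.mul (khead rs) (Nat.pow v2 (Nat.div n 2)))
            (Nat.mul y (ih (kpr y v (ktail rs) false 0) y2 v2 (Nat.pred (Nat.div n 2)))))
          (fun _ _ => ih (kpr y v rs false 0) y2 v2 (Nat.div n 2))
          (Nat.mod n 2)))) n) fuel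

/-- `∑_j (row_j . T) y^j v^(n-j)` for `y = β + (β+1) W`, `v = D (1 + W)`, `W = 2^M` -/
def kout (n D β M : ℕ) (T : List ℕ) (rows : List (List ℕ)) : ℕ :=
  kseq (Nat.add β (Nat.mul (Nat.succ β) (Nat.pow 2 M))) (fun y =>
    kseq (Nat.mul D (Nat.succ (Nat.pow 2 M))) (fun v =>
      kforce (kdots T rows) (fun rs => khb 5 rs y v n)))

end kernel

theorem kseq_eq {α : Type} (n : ℕ) (f : ℕ → α) : kseq n f = f n := by
  cases n <;> rfl

theorem kforce_eq {α : Type} (l : List ℕ) (f : List ℕ → α) : kforce l f = f l := by
  induction l generalizing f with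
  | nil => rfl
  | cons a l ih =>
    show kseq a (fun a' => kforce l (fun l' => f (a' :: l'))) = _
    rw [kseq_eq, ih]

theorem kpr_eq (y v : ℕ) (k : ℕ) : ∀ s : List ℕ, s.length = 2 * k → kpr y v s false 0 = pr y v s := by
  induction k with
  | zero =>
    intro rs h
    have : rs = [] := by simpa using h
    subst this; rfl
  | succ k ih =>
    intro rs h
    match rs, h with
    | a :: b :: s, h =>
      show kseq (Nat.add (Nat.mul a v) (Nat.mul b y)) (fun t => t :: kpr y v s false 0) = _
      rw [kseq_eq, ih s (by simp at h; omega)]; rfl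

theorem kdots_eq (T : List ℕ) (rows : List (List ℕ)) :
    kdots T rows = rows.map (fun r => gdot r T) := by
  induction rows with
  | nil => rfl
  | cons r rs ih =>
    show kseq (kdot r T) (fun t => t :: kdots T rs) = _
    rw [kseq_eq, kdot_eq, ih]; rfl

theorem khb_eq (fuel : ℕ) : ∀ (rs : List ℕ) (y v n : ℕ), rs.length = n + 1 → n < 2 ^ fuel →
    khb fuel rs y v n = ghom rs y v := by
  induction fuel with
  | zero =>
    intro rs y v n h hn
    have hn0 : n = 0 := by simpa using hn
    subst hn0
    match rs, h with
    | [r], _ => show r = r * v ^ 0 + y * 0; simp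
  | succ f ih =>
    intro rs y v n h hn
    rcases n with _ | n
    · match rs, h with
      | [r], _ => show r = r * v ^ 0 + y * 0; simp
    · show kseq (y * y) (fun y2 => kseq (v * v) (fun v2 =>
        (Nat.rec
          (Nat.add (Nat.mul (khead rs) (Nat.pow v2 (Nat.div (n + 1) 2)))
            (Nat.mul y (khb f (kpr y v (ktail rs) false 0) y2 v2 (Nat.pred (Nat.div (n + 1) 2)))))
          (fun _ _ => khb f (kpr y v rs false 0) y2 v2 (Nat.div (n + 1) 2))
          (Nat.mod (n + 1) 2) : ℕ))) = _
      rw [kseq_eq, kseq_eq]
      rcases Nat.even_or_odd' (n + 1) with ⟨k, hk | hk⟩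
      · have hm : Nat.mod (n + 1) 2 = 0 := by show (n + 1) % 2 = 0; omega
        have hd : Nat.div (n + 1) 2 = k := by show (n + 1) / 2 = k; omega
        rw [hm, hd]
        match rs, h with
        | r :: s, h =>
          have hs : s.length = 2 * k := by simp at h; omega
          show r * (v * v) ^ k + y * khb f (kpr y v s false 0) (y * y) (v * v) (Nat.pred k) = _
          have hk1 : Nat.pred k = k - 1 := rfl
          rw [kpr_eq y v k s hs, ih _ _ _ _ (by rw [length_pr y v k s hs, hk1]; omega)
            (by rw [hk1]; rw [pow_succ] at hn; omega), ← ghom_pr y v k s hs]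
          simp only [ghom]
          rw [hs, pow_mul v 2 k, pow_two]
      · have hm : Nat.mod (n + 1) 2 = 1 := by show (n + 1) % 2 = 1; omega
        have hd : Nat.div (n + 1) 2 = k := by show (n + 1) / 2 = k; omega
        rw [hm, hd]
        show khb f (kpr y v rs false 0) (y * y) (v * v) k = _
        have hs : rs.length = 2 * (k + 1) := by omega
        rw [kpr_eq y v (k + 1) rs hs, ih _ _ _ _ (by rw [length_pr y v (k + 1) rs hs])
          (by rw [pow_succ] at hn; omega), ← ghom_pr y v (k + 1) rs hs]

theorem kout_eq (n D β M : ℕ) (T : List ℕ) (rows : List (List ℕ)) (h : rows.length = n + 1)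
    (hn : n < 32) :
    kout n D β M T rows
      = gval rows T (gTl (β + (β + 1) * 2 ^ M) (D * (1 + 2 ^ M)) n) := by
  unfold kout
  rw [kseq_eq, kseq_eq, kforce_eq, khb_eq 5 _ _ _ _ (by rw [kdots_eq]; simpa using h) hn,
    kdots_eq, gval_eq_ghom _ _ _ _ _ h]
  congr 1
  show D * (2 ^ M + 1) = _
  ring

end H60Box
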