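import Pool.Agent.H60.Hg.Ex

/-! Leaf boxes `[α/D,(α+1)/D] × [β/D',(β+1)/D']`: nonnegativity of polynomial expressions. -/

open Polynomial Finset

namespace H60Hg

open H60Box

/-! ### sums of coefficients -/

def gsum1 : List ℕ → ℕ
  | [] => 0
  | a :: l => a + gsum1 l

def gsum : List (List ℕ) → ℕ
  | [] => 0
  | r :: rs => gsum1 r + gsum rs

theorem gdot_le (l T : List ℕ) (A : ℕ) (hT : ∀ t ∈ T, t ≤ A) : gdot l T ≤ gsum1 l * A := by
  induction l generalizing T with
  | nil => simp [gdot, gsum1]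
  | cons a l ih =>
    cases T with
    | nil => simp [gdot]
    | cons b m =>
      simp only [gdot, gsum1, add_mul]
      exact Nat.add_le_add (Nat.mul_le_mul_left _ (hT b (by simp)))
        (ih m (fun t ht => hT t (by simp [ht])))

theorem gval_le (rows : List (List ℕ)) (T U : List ℕ) (A B : ℕ) (hT : ∀ t ∈ T, t ≤ A)
    (hU : ∀ t ∈ U, t ≤ B) : gval rows T U ≤ gsum rows * (A * B) := by
  induction rows generalizing U with
  | nil => simp [gval, gsum]
  | cons r rs ih =>
    cases U with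
    | nil => simp [gval]
    | cons s ss =>
      simp only [gval, gsum, add_mul]
      refine Nat.add_le_add ?_ (ih ss (fun t ht => hU t (by simp [ht])))
      calc s * gdot r T ≤ B * (gsum1 r * A) :=
            Nat.mul_le_mul (hU s (by simp)) (gdot_le r T A hT)
        _ = gsum1 r * (A * B) := by ring

theorem gT_le (x u M n k i : ℕ) (hx : x ≤ M) (hu : u ≤ M) (h : i + k ≤ n + 1) :
    ∀ t ∈ gT x u n k i, t ≤ M ^ n := by
  induction k generalizing i with
  | zero => simp [gT]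
  | succ k ih =>
    intro t ht
    simp only [gT, List.mem_cons] at ht
    rcases ht with rfl | ht
    · calc x ^ i * u ^ (n - i) ≤ M ^ i * M ^ (n - i) :=
            Nat.mul_le_mul (Nat.pow_le_pow_left hx _) (Nat.pow_le_pow_left hu _)
        _ = M ^ n := by rw [← pow_add]; congr 1; omega
    · exact ih (i + 1) (by omega) t ht

/-! ### tables of base functions -/

/-- table of base functions: degrees, rows (with nonnegative entries), bounds -/
structure BT where
  ns : List ℕ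
  rs : List (List (List ℕ))
  bs : List ℕ

noncomputable section

namespace BT

variable (bt : BT)

def nn (k : ℕ) : ℕ := knthN bt.ns k
def rr (k : ℕ) : List (List ℕ) := knth bt.rs k
def bb (k : ℕ) : ℕ := knthN bt.bs k

/-- value of the `k`-th base function -/
def val {R : Type*} [CommRing R] (x y : R) (k : ℕ) : R :=
  pv (bt.rr k) (bt.nn k) x y

structure Valid : Prop where
  hr : ∀ k, (bt.rr k).length = bt.nn k + 1 ∧ bt.nn k < 32 ∨ bt.rr k = [] ∧ bt.nn k = 0
  hb : ∀ k, gsum (bt.rr k) ≤ bt.bb k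

end BT

/-! ### the leaf substitution -/

def xP (α : ℕ) : ℤ[X][X] := (α : ℤ[X][X]) + ((α + 1 : ℕ) : ℤ[X][X]) * C X
def uP (D : ℕ) : ℤ[X][X] := (D : ℤ[X][X]) * (1 + C X)
def yP (α : ℕ) : ℤ[X][X] := (α : ℤ[X][X]) + ((α + 1 : ℕ) : ℤ[X][X]) * X
def vP (D : ℕ) : ℤ[X][X] := (D : ℤ[X][X]) * (1 + X)

theorem rep_xP (α : ℕ) : Rep (xP α) 1 0 (2 * α + 1) :=
  (((Rep.natCast α).mono (Nat.zero_le 1) le_rfl le_rfl).add
    (((Rep.natCast (α + 1)).mul Rep.inn).mono (by omega) (by omega) le_rfl)).mono le_rfl le_rfl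
      (by omega)

theorem rep_yP (α : ℕ) : Rep (yP α) 0 1 (2 * α + 1) :=
  (((Rep.natCast α).mono le_rfl (Nat.zero_le 1) le_rfl).add
    (((Rep.natCast (α + 1)).mul Rep.out).mono (by omega) (by omega) le_rfl)).mono le_rfl le_rfl
      (by omega)

theorem rep_uP (D : ℕ) : Rep (uP D) 1 0 (2 * D) := by
  have h1 : Rep (1 + C X : ℤ[X][X]) 1 0 (1 + 1) := by
    have := ((Rep.natCast 1).mono (Nat.zero_le 1) (Nat.zero_le 0) le_rfl).add Rep.inn
    simpa using this
  exact ((Rep.natCast D).mul h1).mono (by omega) (by omega) (by omega)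

theorem rep_vP (D : ℕ) : Rep (vP D) 0 1 (2 * D) := by
  have h1 : Rep (1 + X : ℤ[X][X]) 0 1 (1 + 1) := by
    have := ((Rep.natCast 1).mono (Nat.zero_le 0) (Nat.zero_le 1) le_rfl).add Rep.out
    simpa using this
  exact ((Rep.natCast D).mul h1).mono (by omega) (by omega) (by omega)

/-- the local polynomial on the leaf -/
def lP (n α D β D' : ℕ) (rows : List (List ℕ)) : ℤ[X][X] :=
  gval rows (gTl (xP α) (uP D) n) (gTl (yP β) (vP D') n)

def UP (D D' : ℕ) : ℤ[X][X] := uP D * vP D'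

/-- bound of `UP` -/
def kBU (D D' : ℕ) : ℕ := Nat.mul (Nat.mul 2 D) (Nat.mul 2 D')

/-- the list of inner powers and the value of a base function, `Z = 2^N`, `W = 2^M` -/
def kTx (α D N n : ℕ) : List ℕ :=
  kTl (Nat.add α (Nat.mul (Nat.succ α) (Nat.pow 2 N))) (Nat.mul D (Nat.succ (Nat.pow 2 N))) n

def klv (n α D β D' N M : ℕ) (rows : List (List ℕ)) : ℤ :=
  kforce (kTx α D N n) (fun T => Int.ofNat (kout n D' β M T rows))

def kU (D D' N M : ℕ) : ℕ :=
  Nat.mul (Nat.mul D (Nat.succ (Nat.pow 2 N))) (Nat.mul D' (Nat.succ (Nat.pow 2 M)))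

end

theorem rep_lP {n α D β D' S : ℕ} {rows : List (List ℕ)} (hα : α < D) (hβ : β < D')
    (hS : gsum rows ≤ S) : Rep (lP n α D β D' rows) n n (S * kBU D D' ^ n) := by
  have h1 := Rep.gval_gTl (rep_xP α) (rep_uP D) (rep_yP β) (rep_vP D') rows n
  refine h1.mono le_rfl le_rfl ?_
  have h2 := gval_le rows (gTl (2 * α + 1) (2 * D) n) (gTl (2 * β + 1) (2 * D') n)
    ((2 * D) ^ n) ((2 * D') ^ n)
    (gT_le _ _ _ n (n + 1) 0 (by omega) le_rfl (by omega))
    (gT_le _ _ _ n (n + 1) 0 (by omega) le_rfl (by omega))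
  refine h2.trans ?_
  have e : kBU D D' = (2 * D) * (2 * D') := rfl
  rw [e, mul_pow (2 * D) (2 * D')]
  exact Nat.mul_le_mul_right _ hS

theorem rep_UP (D D' : ℕ) : Rep (UP D D') 1 1 (kBU D D') :=
  ((rep_uP D).mul (rep_vP D')).mono (by omega) (by omega) le_rfl

theorem evr_xP {R : Type*} [CommRing R] (z w : R) (α : ℕ) :
    evr z w (xP α) = α + (α + 1) * z := by
  simp [xP, evr_inn]

theorem evr_yP {R : Type*} [CommRing R] (z w : R) (α : ℕ) :
    evr z w (yP α) = α + (α + 1) * w := by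
  simp [yP, evr_out]

theorem evr_uP {R : Type*} [CommRing R] (z w : R) (D : ℕ) :
    evr z w (uP D) = D * (1 + z) := by
  simp [uP, evr_inn]

theorem evr_vP {R : Type*} [CommRing R] (z w : R) (D : ℕ) :
    evr z w (vP D) = D * (1 + w) := by
  simp [vP, evr_out]

theorem gval_nil {R : Type*} [CommSemiring R] (T U : List R) : gval [] T U = 0 := rfl

theorem evr_lP_nat (n α D β D' N M : ℕ) (rows : List (List ℕ))
    (h : rows.length = n + 1 ∧ n < 32 ∨ rows = [] ∧ n = 0) :
    evr ((2 : ℤ) ^ N) ((2 : ℤ) ^ M) (lP n α D β D' rows)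
      = (kout n D' β M (kTx α D N n) rows : ℕ) := by
  rcases h with h | h
  · rw [kout_eq n D' β M _ rows h.1 h.2]
    unfold lP kTx
    rw [kTl_eq, map_gval, map_gTl, map_gTl, evr_xP, evr_uP, evr_yP, evr_vP,
      ← Nat.coe_castRingHom, map_gval, map_gTl, map_gTl]
    simp only [Nat.coe_castRingHom]
    have h1 : ((Nat.add α (Nat.mul (Nat.succ α) (Nat.pow 2 N)) : ℕ) : ℤ)
        = α + (α + 1) * 2 ^ N := by
      show ((α + (α + 1) * 2 ^ N : ℕ) : ℤ) = _
      push_cast; ring
    have h2 : ((Nat.mul D (Nat.succ (Nat.pow 2 N)) : ℕ) : ℤ) = D * (1 + 2 ^ N) := by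
      show ((D * (2 ^ N + 1) : ℕ) : ℤ) = _
      push_cast; ring
    rw [h1, h2]
    push_cast
    rfl
  · obtain ⟨h1, h2⟩ := h
    subst h1 h2
    rw [lP, gval_nil, map_zero]
    unfold kout
    rw [kseq_eq, kseq_eq, kforce_eq]
    rfl

theorem evr_UP_nat (D D' N M : ℕ) :
    evr ((2 : ℤ) ^ N) ((2 : ℤ) ^ M) (UP D D') = (kU D D' N M : ℕ) := by
  unfold UP
  rw [map_mul, evr_uP, evr_vP]
  show _ = (((D * (2 ^ N + 1)) * (D' * (2 ^ M + 1)) : ℕ) : ℤ)
  push_cast; ring

/-- real evaluation on the leaf -/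
theorem evr_lP_real (n α D β D' : ℕ) (rows : List (List ℕ)) (z w x y : ℝ)
    (hx : x * (D * (1 + z)) = α + (α + 1) * z) (hy : y * (D' * (1 + w)) = β + (β + 1) * w) :
    evr z w (lP n α D β D' rows) = evr z w (UP D D') ^ n * pv rows n x y := by
  unfold lP UP
  rw [map_gval, map_gTl, map_gTl, map_mul, evr_xP, evr_uP, evr_yP, evr_vP,
    ← hx, ← hy, gval_homog, mul_pow ((D : ℝ) * (1 + z))]

theorem exists_z {α D : ℕ} (hD : 0 < D) {x : ℝ} (h1 : (α : ℝ) / D ≤ x) (h2 : x < (α + 1) / D) :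
    ∃ z : ℝ, 0 ≤ z ∧ x * (D * (1 + z)) = α + (α + 1) * z := by
  have hD' : (0 : ℝ) < D := by exact_mod_cast hD
  rw [div_le_iff₀ hD'] at h1
  rw [lt_div_iff₀ hD'] at h2
  refine ⟨(x * D - α) / (α + 1 - x * D), div_nonneg (by linarith) (by linarith), ?_⟩
  have h3 : (α : ℝ) + 1 - x * D ≠ 0 := by linarith
  field_simp
  ring

/-- closed leaf box -/
def leafBox (α D β D' : ℕ) : Set (ℝ × ℝ) :=
  Set.Icc ((α : ℝ) / D) ((α + 1) / D) ×ˢ Set.Icc ((β : ℝ) / D') ((β + 1) / D')

theorem continuous_gdot (l : List ℕ) (n k i : ℕ) :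
    Continuous (fun x : ℝ => gdot l (gT x 1 n k i)) := by
  induction l generalizing k i with
  | nil => simpa [gdot] using continuous_const
  | cons a l ih =>
    rcases k with _ | k
    · simpa [gdot, gT] using continuous_const
    · simp only [gdot, gT]
      exact (continuous_const.mul ((continuous_id.pow i).mul continuous_const)).add (ih k (i + 1))

theorem continuous_pv_aux (rows : List (List ℕ)) (n m k i : ℕ) :
    Continuous (fun p : ℝ × ℝ => gval rows (gTl p.1 1 n) (gT p.2 1 m k i)) := by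
  induction rows generalizing k i with
  | nil => simpa [gval] using continuous_const
  | cons r rs ih =>
    rcases k with _ | k
    · simpa [gval, gT] using continuous_const
    · simp only [gval, gT]
      exact (((continuous_snd.pow i).mul continuous_const).mul
        ((continuous_gdot r n (n + 1) 0).comp continuous_fst)).add (ih k (i + 1))

theorem continuous_pv (rows : List (List ℕ)) (n : ℕ) :
    Continuous (fun p : ℝ × ℝ => pv rows n p.1 p.2) := continuous_pv_aux rows n n (n + 1) 0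

theorem continuous_ev (bt : BT) (e : Ex) :
    Continuous (fun p : ℝ × ℝ => e.ev (bt.val p.1 p.2)) := by
  induction e with
  | b k => exact continuous_pv _ _
  | c m => exact continuous_const
  | add e f ihe ihf => exact ihe.add ihf
  | sub e f ihe ihf => exact ihe.sub ihf
  | mul e f ihe ihf => exact ihe.mul ihf
  | pow e k ih => exact ih.pow k

/-- from the half-open box to the closed one -/
theorem nonneg_closed {α D β D' : ℕ} (hD : 0 < D) (hD' : 0 < D') {F : ℝ × ℝ → ℝ}
    (hF : Continuous F)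
    (h : ∀ x y : ℝ, (α : ℝ) / D ≤ x → x < (α + 1) / D → (β : ℝ) / D' ≤ y → y < (β + 1) / D' →
      0 ≤ F (x, y)) : ∀ p ∈ leafBox α D β D', 0 ≤ F p := by
  have hD1 : (0 : ℝ) < D := by exact_mod_cast hD
  have hD2 : (0 : ℝ) < D' := by exact_mod_cast hD'
  have h1 : leafBox α D β D' ⊆ {p | 0 ≤ F p} := by
    have h2 : IsClosed {p | 0 ≤ F p} := isClosed_le continuous_const hF
    have h3 : (Set.Ico ((α : ℝ) / D) ((α + 1) / D) ×ˢ Set.Ico ((β : ℝ) / D') ((β + 1) / D'))
        ⊆ {p | 0 ≤ F p} := by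
      rintro ⟨x, y⟩ ⟨hx, hy⟩
      exact h x y hx.1 hx.2 hy.1 hy.2
    have h4 := closure_minimal h3 h2
    rw [closure_prod_eq, closure_Ico (by
      have : (α : ℝ) / D < (α + 1) / D := by gcongr; linarith
      exact this.ne), closure_Ico (by
      have : (β : ℝ) / D' < (β + 1) / D' := by gcongr; linarith
      exact this.ne)] at h4
    exact h4
  exact h1

/-! ### kernel check of a leaf -/

noncomputable section

def kchkI (m : ℕ) (V : ℤ) : Bool :=
  Nat.beq (Nat.land (Int.toNat (Int.add V (Int.ofNat m))) m) m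

/-- bounds of the local base functions -/
def kB (bt : BT) (D D' : ℕ) (k : ℕ) : ℕ := Nat.mul (bt.bb k) (Nat.pow (kBU D D') (bt.nn k))

/-- check of one expression on a leaf -/
def kex (bt : BT) (α D β D' : ℕ) (e : Ex) : Bool :=
  kseq (e.kdeg bt.nn) (fun f => kseq (e.kbd bt.nn (kB bt D D') (kBU D D')) (fun bd =>
    kseq (Nat.succ (Nat.log2 bd)) (fun N =>
      kseq (Nat.mul (Nat.succ N) (Nat.succ f)) (fun M =>
      and (Nat.ble (Nat.succ bd) (Nat.pow 2 N))
        (kseqI (e.khev bt.nn (fun k => klv (bt.nn k) α D β D' (Nat.succ N) M (bt.rr k))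
          (kU D D' (Nat.succ N) M))
          (kchkI (kmask N (Nat.mul (Nat.succ f) (Nat.succ f)))))))))

def kexs (bt : BT) (α D β D' : ℕ) (es : List Ex) : Bool :=
  List.rec true (fun e _ ih => and (kex bt α D β D' e) ih) es

end

theorem klv_eq (bt : BT) (hbt : bt.Valid) (α D β D' N M k : ℕ) :
    klv (bt.nn k) α D β D' N M (bt.rr k)
      = evr ((2 : ℤ) ^ N) ((2 : ℤ) ^ M) (lP (bt.nn k) α D β D' (bt.rr k)) := by
  unfold klv
  rw [kforce_eq, evr_lP_nat _ _ _ _ _ _ _ _ (hbt.hr k)]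
  rfl

theorem kex_sound {bt : BT} (hbt : bt.Valid) {α D β D' : ℕ} (hα : α < D) (hβ : β < D')
    {e : Ex} (h : kex bt α D β D' e = true) :
    ∀ p ∈ leafBox α D β D', 0 ≤ e.ev (bt.val p.1 p.2) := by
  have hD : 0 < D := by omega
  have hD' : 0 < D' := by omega
  unfold kex at h
  rw [kseq_eq, kseq_eq, kseq_eq, kseq_eq, Bool.and_eq_true, kseqI_eq] at h
  obtain ⟨h2, h3⟩ := h
  have h2' := Nat.le_of_ble_eq_true h2
  rw [e.kbd_eq] at h2' h3
  rw [e.kdeg_eq] at h3
  set BU := kBU D D' with hBU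
  set v : ℕ → ℤ[X][X] := fun k => lP (bt.nn k) α D β D' (bt.rr k) with hv
  set bd := e.bd bt.nn (kB bt D D') BU with hbd
  set N := Nat.succ (Nat.log2 bd) with hN
  set f := e.deg bt.nn with hf
  have hrep : Rep (e.hev bt.nn v (UP D D')) f f bd := by
    refine Ex.rep_hev (fun k => ?_) (rep_UP D D') e
    exact rep_lP hα hβ (hbt.hb k)
  have hlt : bd < 2 ^ N := h2'
  have hW : ((2 : ℤ) ^ (N + 1)) ^ (f + 1) = 2 ^ (Nat.mul (Nat.succ N) (Nat.succ f)) := by
    rw [← pow_mul]; rfl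
  have hVal : evr ((2 : ℤ) ^ (N + 1)) (((2 : ℤ) ^ (N + 1)) ^ (f + 1))
      (e.hev bt.nn v (UP D D'))
      = e.khev bt.nn (fun k => klv (bt.nn k) α D β D' (Nat.succ N)
          (Nat.mul (Nat.succ N) (Nat.succ f)) (bt.rr k))
          (kU D D' (Nat.succ N) (Nat.mul (Nat.succ N) (Nat.succ f))) := by
    rw [Ex.khev_eq, Ex.map_hev, hW, evr_UP_nat]
    congr 1
    funext k
    rw [klv_eq bt hbt]
  have hcoef : ∀ l k, 0 ≤ ((e.hev bt.nn v (UP D D')).coeff l).coeff k := by
    apply coeff_nonneg hrep hlt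
    rw [hVal, ← kmask_eq]
    exact Nat.eq_of_beq_eq_true h3
  apply nonneg_closed hD hD' (F := fun p => e.ev (bt.val p.1 p.2)) (continuous_ev bt e)
  intro x y hx1 hx2 hy1 hy2
  obtain ⟨z, hz, hxz⟩ := exists_z hD hx1 hx2
  obtain ⟨w, hw, hyw⟩ := exists_z hD' hy1 hy2
  have h5 := evr_nonneg hz hw hrep hcoef
  rw [Ex.map_hev] at h5
  have h6 : (fun k => evr z w (v k))
      = fun k => evr z w (UP D D') ^ bt.nn k * bt.val x y k := by
    funext k
    rw [hv]
    simp only
    rw [evr_lP_real _ α D β D' _ z w x y hxz hyw, BT.val]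
  rw [h6, Ex.hev_scale] at h5
  have hU : 0 < evr z w (UP D D') := by
    unfold UP
    rw [map_mul, evr_uP, evr_vP]
    have : (0 : ℝ) < D := by exact_mod_cast hD
    have : (0 : ℝ) < D' := by exact_mod_cast hD'
    positivity
  exact nonneg_of_mul_nonneg_right h5 (by positivity)

theorem kexs_sound {bt : BT} (hbt : bt.Valid) {α D β D' : ℕ} (hα : α < D) (hβ : β < D')
    {es : List Ex} (h : kexs bt α D β D' es = true) :
    ∀ e ∈ es, ∀ p ∈ leafBox α D β D', 0 ≤ e.ev (bt.val p.1 p.2) := by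
  induction es with
  | nil => simp
  | cons a es ih =>
    have h' : (and (kex bt α D β D' a) (kexs bt α D β D' es)) = true := h
    rw [Bool.and_eq_true] at h'
    intro e he
    rcases List.mem_cons.mp he with rfl | he
    · exact kex_sound hbt hα hβ h'.1
    · exact ih h'.2 e he

end H60Hg
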