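import Mathlib

/-! The polynomials `P` (degree 25) and `Q` (degree 13) of the certificate. -/

namespace H60Hg

/-- `(i, j, k, c)` stands for `c * (x^i y^j z^k + y^i z^j x^k + z^i x^j y^k)` -/
def LP3 : List (ℕ × ℕ × ℕ × ℤ) := [
  (0, 0, 25, -75), (0, 1, 24, -2518), (0, 2, 23, 1437), (0, 3, 22, -37398), (0, 4, 21, 2446),
  (0, 5, 20, -170474), (0, 6, 19, 129350), (0, 7, 18, -608923), (0, 8, 17, 298689), (0, 9, 16, 382774),
  (0, 10, 15, 1243558), (0, 11, 14, -1511933), (0, 12, 13, -15812), (0, 13, 12, 294851), (0, 14, 11, 2185064),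
  (0, 15, 10, 1012468), (0, 16, 9, -174297), (0, 17, 8, -355775), (0, 18, 7, 352012), (0, 19, 6, 113810),
  (0, 20, 5, 58749), (0, 21, 4, -10036), (0, 22, 3, 13511), (0, 23, 2, -594), (0, 24, 1, 1177),
  (1, 1, 23, 2053), (1, 2, 22, 1008), (1, 3, 21, -9580), (1, 4, 20, 78332), (1, 5, 19, 547368),
  (1, 6, 18, 479508), (1, 7, 17, 1301814), (1, 8, 16, 2144152), (1, 9, 15, -1357837), (1, 10, 14, -6358648),
  (1, 11, 13, 8383141), (1, 12, 12, 9702445), (1, 13, 11, -3897097), (1, 14, 10, -7545232), (1, 15, 9, 5481164),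
  (1, 16, 8, -2360183), (1, 17, 7, -1482983), (1, 18, 6, -613490), (1, 19, 5, 809313), (1, 20, 4, -236239),
  (1, 21, 3, -13285), (1, 22, 2, -35928), (2, 2, 21, -29778), (2, 3, 20, -295954), (2, 4, 19, 1097547),
  (2, 5, 18, -368939), (2, 6, 17, -1781012), (2, 7, 16, -12312488), (2, 8, 15, 8110320), (2, 9, 14, 14691819),
  (2, 10, 13, -4145463), (2, 11, 12, -13594215), (2, 12, 11, 16008890), (2, 13, 10, -13036313), (2, 14, 9, -10993612),
  (2, 15, 8, 11506053), (2, 16, 7, 8520817), (2, 17, 6, -4126941), (2, 18, 5, -786864), (2, 19, 4, 1758521),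
  (2, 20, 3, 113981), (3, 3, 19, 1855003), (3, 4, 18, 542530), (3, 5, 17, -9047168), (3, 6, 16, 7186451),
  (3, 7, 15, 32313670), (3, 8, 14, -1555535), (3, 9, 13, 12430076), (3, 10, 12, -7480215), (3, 11, 11, -32767291),
  (3, 12, 10, -5453698), (3, 13, 9, 56561832), (3, 14, 8, -10697391), (3, 15, 7, -15776463), (3, 16, 6, 8707647),
  (3, 17, 5, -2984025), (3, 18, 4, -3634427), (4, 4, 17, -4748000), (4, 5, 16, -4869578), (4, 6, 15, 35154703),
  (4, 7, 14, 34847113), (4, 8, 13, -131686790), (4, 9, 12, -148689659), (4, 10, 11, 173223733), (4, 11, 10, 150318141),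
  (4, 12, 9, -135571487), (4, 13, 8, -34464606), (4, 14, 7, 8522164), (4, 15, 6, 3695699), (4, 16, 5, 16408911),
  (5, 5, 15, 57575798), (5, 6, 14, -121997390), (5, 7, 13, -105433296), (5, 8, 12, 234768156), (5, 9, 11, 197054595),
  (5, 10, 10, -111070031), (5, 11, 9, -33938479), (5, 12, 8, -65967201), (5, 13, 7, 79253792), (5, 14, 6, -65315588),
  (6, 6, 13, 82072167), (6, 7, 12, 2032923), (6, 8, 11, -37436947), (6, 9, 10, -136613441), (6, 10, 9, -35950775),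
  (6, 11, 8, -98434566), (6, 12, 7, 165002383), (7, 7, 11, -42594155), (7, 8, 10, -432785585), (7, 9, 9, 178586993),
  (7, 10, 8, 358660606), (8, 8, 9, 21217975)]

/-- `(i, j, k, c)` stands for `c * (x^i y^j z^k + y^i z^j x^k + z^i x^j y^k)` -/
def LQ3 : List (ℕ × ℕ × ℕ × ℤ) := [
  (0, 0, 13, 1040), (0, 1, 12, 17984), (0, 2, 11, 15235), (0, 3, 10, 104371), (0, 4, 9, 267995),
  (0, 5, 8, -42184), (0, 6, 7, 511380), (0, 7, 6, 39142), (0, 8, 5, 91508), (0, 9, 4, -89021),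
  (0, 10, 3, 46621), (0, 11, 2, 6484), (0, 12, 1, 22627), (1, 1, 11, 2694), (1, 2, 10, 163183),
  (1, 3, 9, -36642), (1, 4, 8, 89437), (1, 5, 7, -995469), (1, 6, 6, -443477), (1, 7, 5, -418416),
  (1, 8, 4, 130064), (1, 9, 3, -134354), (1, 10, 2, 65645), (2, 2, 9, 86167), (2, 3, 8, 132790),
  (2, 4, 7, 502880), (2, 5, 6, -60916), (2, 6, 5, 1567763), (2, 7, 4, 545907), (2, 8, 3, 364824),
  (3, 3, 7, -1745262), (3, 4, 6, 591200), (3, 5, 5, -1000250), (3, 6, 4, 366908), (4, 4, 5, 1482661)]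

end H60Hg
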