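import Pool.Agent.H60.Hg.Src
import Pool.Agent.H60.Hg.C.All
import Pool.Agent.H81.HD.Stm

/-! The certificate for the hedgehog problem in the form wanted by `S_MAIN`. -/

set_option linter.unusedSimpArgs false

open Set Filter Topology
open scoped ContDiff

namespace H60Hg

open Ex
open Pool.Agent.H30.Hedge (V3)
open Pool.Agent.H81.HC (D1 D2)
open Pool.Agent.H81.HD (cyc pt KK Cert rho)

/-- all base functions at a point `y` of the square `[-1,1]²` -/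
noncomputable def W (y : ℝ × ℝ) : ℕ → ℝ :=
  allV bt srcL ((y.1 + 1) / 2) ((y.2 + 1) / 2) (2 * ((y.1 + 1) / 2) - 1) (2 * ((y.2 + 1) / 2) - 1)

theorem W_eq (y : ℝ × ℝ) {e : Ex} (h : kid bt srcL srcN e = true) : e.ev (W y) = 0 :=
  ident bt srcL srcN bt_valid src_ok h _ _

theorem W_src (y : ℝ × ℝ) (k : ℕ) : W y (k + 16) = mev y.1 y.2 (srcL k) := by
  unfold W allV
  have h1 : Nat.blt (k + 16) 16 = false := by
    rw [← Bool.not_eq_true, Nat.blt_eq]; omega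
  rw [h1, cond_false, Nat.add_sub_cancel]
  have h2 : ∀ t : ℝ, 2 * ((t + 1) / 2) - 1 = t := fun t => by ring
  rw [h2, h2]

theorem W_bt (y : ℝ × ℝ) (k : ℕ) (h : k < 16) :
    W y k = bt.val ((y.1 + 1) / 2) ((y.2 + 1) / 2) k := by
  unfold W allV
  have h1 : Nat.blt k 16 = true := by rw [Nat.blt_eq]; exact h
  rw [h1, cond_true]

theorem D1_mev (L : List (ℕ × ℕ × ℤ)) :
    D1 (fun q : ℝ × ℝ => mev q.1 q.2 L) = fun q => mev q.1 q.2 (dX L) := by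
  funext q
  unfold D1
  rw [(hasFDerivAt_mev L q).fderiv]
  simp

theorem D2_mev (L : List (ℕ × ℕ × ℤ)) :
    D2 (fun q : ℝ × ℝ => mev q.1 q.2 L) = fun q => mev q.1 q.2 (dY L) := by
  funext q
  unfold D2
  rw [(hasFDerivAt_mev L q).fderiv]
  simp

/-- the polynomial of degree 25 -/
def P3 (x : V3) : ℝ := S3 (x 0) (x 1) (x 2) LP3

/-- the polynomial of degree 13 -/
def Q3 (x : V3) : ℝ := S3 (x 0) (x 1) (x 2) LQ3

theorem coord_contDiff (i : Fin 3) : ContDiff ℝ ∞ (fun x : V3 => x i) := by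
  fun_prop

theorem P3_contDiff : ContDiff ℝ ∞ P3 :=
  S3_contDiff (coord_contDiff 0) (coord_contDiff 1) (coord_contDiff 2) LP3

theorem Q3_contDiff : ContDiff ℝ ∞ Q3 :=
  S3_contDiff (coord_contDiff 0) (coord_contDiff 1) (coord_contDiff 2) LQ3

theorem homP : homOK 25 LP3 = true := by decide +kernel
theorem homQ : homOK 13 LQ3 = true := by decide +kernel

theorem P3_smul (t : ℝ) (x : V3) : P3 (t • x) = t ^ (2 * 12 + 1) * P3 x := by
  unfold P3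
  simp only [PiLp.smul_apply, smul_eq_mul]
  exact S3_hom 25 t _ _ _ LP3 homP

theorem Q3_smul (t : ℝ) (x : V3) : Q3 (t • x) = t ^ 13 * Q3 x := by
  unfold Q3
  simp only [PiLp.smul_apply, smul_eq_mul]
  exact S3_hom 13 t _ _ _ LQ3 homQ

theorem P3_cyc (x : V3) : P3 (cyc x) = P3 x := by
  unfold P3
  exact S3_cyc (x 0) (x 1) (x 2) LP3

theorem Q3_cyc (x : V3) : Q3 (cyc x) = Q3 x := by
  unfold Q3
  exact S3_cyc (x 0) (x 1) (x 2) LQ3

theorem P3_pt : (fun y => P3 (pt y)) = fun y : ℝ × ℝ => mev y.1 y.2 LP := by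
  funext y
  exact S3_one y.1 y.2 LP3

theorem Q3_pt : (fun y => Q3 (pt y)) = fun y : ℝ × ℝ => mev y.1 y.2 LQ := by
  funext y
  exact S3_one y.1 y.2 LQ3

theorem good_all (y : ℝ × ℝ) (hy : y ∈ KK) : GoodAt ((y.1 + 1) / 2, (y.2 + 1) / 2) := by
  obtain ⟨⟨h1, h2⟩, h3, h4⟩ := hy
  apply n_0_1_0_1
  refine ⟨⟨?_, ?_⟩, ?_, ?_⟩ <;> simp <;> linarith

/-- the ten values -/
theorem good_W (y : ℝ × ℝ) (hy : y ∈ KK) :
    Good (A11.ev (W y)) (A12.ev (W y)) (A22.ev (W y)) (G1.ev (W y)) (G2.ev (W y)) (QQ.ev (W y))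
      (RH.ev (W y)) (Q11.ev (W y)) (Q12.ev (W y)) (Q22.ev (W y)) := by
  have h := good_all y hy
  unfold GoodAt at h
  have key : ∀ (k : ℕ) (K : ℤ) (n : ℕ), k < 16 → (off k K n).ev (W y)
      = (off k K n).ev (bt.val ((y.1 + 1) / 2) ((y.2 + 1) / 2)) := by
    intro k K n hk
    simp only [off, Ex.ev]
    rw [W_bt y k hk, W_bt y 10 (by norm_num)]
  unfold A11 A12 A22 G1 G2 QQ RH Q11 Q12 Q22 at *
  rw [key 0 _ _ (by norm_num), key 1 _ _ (by norm_num), key 2 _ _ (by norm_num),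
    key 3 _ _ (by norm_num), key 4 _ _ (by norm_num), key 5 _ _ (by norm_num),
    key 6 _ _ (by norm_num), key 7 _ _ (by norm_num), key 8 _ _ (by norm_num),
    key 9 _ _ (by norm_num)]
  exact h

theorem sub_zero' {y : ℝ × ℝ} {e f : Ex} (h : kid bt srcL srcN (sub e f) = true) :
    e.ev (W y) = f.ev (W y) := by
  have := W_eq y h
  simp only [Ex.ev] at this
  linarith

section values

variable (y : ℝ × ℝ)

theorem w16 : W y 16 = y.1 := by
  rw [W_src y 0]; simp [srcL, mev]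
theorem w17 : W y 17 = y.2 := by
  rw [W_src y 1]; simp [srcL, mev]
theorem w18 : W y 18 = mev y.1 y.2 LP := W_src y 2
theorem w19 : W y 19 = mev y.1 y.2 (dX LP) := W_src y 3
theorem w20 : W y 20 = mev y.1 y.2 (dY LP) := W_src y 4
theorem w21 : W y 21 = mev y.1 y.2 (dX (dX LP)) := W_src y 5
theorem w22 : W y 22 = mev y.1 y.2 (dY (dX LP)) := W_src y 6
theorem w23 : W y 23 = mev y.1 y.2 (dY (dY LP)) := W_src y 7
theorem w24 : W y 24 = mev y.1 y.2 LQ := W_src y 8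
theorem w25 : W y 25 = mev y.1 y.2 (dX LQ) := W_src y 9
theorem w26 : W y 26 = mev y.1 y.2 (dY LQ) := W_src y 10
theorem w27 : W y 27 = mev y.1 y.2 (dX (dX LQ)) := W_src y 11
theorem w28 : W y 28 = mev y.1 y.2 (dY (dX LQ)) := W_src y 12
theorem w29 : W y 29 = mev y.1 y.2 (dY (dY LQ)) := W_src y 13

theorem v_rho : rhoE.ev (W y) = rho y := by
  simp only [rhoE, Ex.ev, w16, w17, rho]
  push_cast; ring

theorem v_A11 : A11.ev (W y)
    = Pool.Agent.H81.HD.a11 (fun q : ℝ × ℝ => mev q.1 q.2 LP) 12 y := by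
  rw [sub_zero' i_A11]
  simp only [sA11, Ex.ev, v_rho, w16, w17, w18, w19, w20, w21, w22, w23,
    Pool.Agent.H81.HD.a11, D1_mev, D2_mev]
  push_cast; ring

theorem v_A12 : A12.ev (W y)
    = Pool.Agent.H81.HD.a12 (fun q : ℝ × ℝ => mev q.1 q.2 LP) 12 y := by
  rw [sub_zero' i_A12]
  simp only [sA12, Ex.ev, v_rho, w16, w17, w18, w19, w20, w21, w22, w23,
    Pool.Agent.H81.HD.a12, D1_mev, D2_mev]
  push_cast; ring

theorem v_A22 : A22.ev (W y)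
    = Pool.Agent.H81.HD.a22 (fun q : ℝ × ℝ => mev q.1 q.2 LP) 12 y := by
  rw [sub_zero' i_A22]
  simp only [sA22, Ex.ev, v_rho, w16, w17, w18, w19, w20, w21, w22, w23,
    Pool.Agent.H81.HD.a22, D1_mev, D2_mev]
  push_cast; ring

theorem v_G1 : G1.ev (W y)
    = Pool.Agent.H81.HD.g1 (fun q : ℝ × ℝ => mev q.1 q.2 LQ) 13 y := by
  rw [sub_zero' i_G1]
  simp only [sG1, Ex.ev, v_rho, w16, w17, w24, w25, w26,
    Pool.Agent.H81.HD.g1, D1_mev, D2_mev]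
  push_cast; ring

theorem v_G2 : G2.ev (W y)
    = Pool.Agent.H81.HD.g2 (fun q : ℝ × ℝ => mev q.1 q.2 LQ) 13 y := by
  rw [sub_zero' i_G2]
  simp only [sG2, Ex.ev, v_rho, w16, w17, w24, w25, w26,
    Pool.Agent.H81.HD.g2, D1_mev, D2_mev]
  push_cast; ring

theorem v_QQ : QQ.ev (W y) = mev y.1 y.2 LQ := by
  rw [sub_zero' i_QQ]
  simp only [Ex.ev, w24]

theorem v_RH : RH.ev (W y) = rho y := by
  rw [sub_zero' i_RH, v_rho]

theorem v_Q11 : Q11.ev (W y)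
    = Pool.Agent.H81.HD.q11 (fun q : ℝ × ℝ => mev q.1 q.2 LQ) 13 y := by
  rw [sub_zero' i_Q11]
  simp only [sQ11, Ex.ev, v_rho, w16, w17, w24, w25, w26, w27, w28, w29,
    Pool.Agent.H81.HD.q11, D1_mev, D2_mev]
  push_cast; ring

theorem v_Q12 : Q12.ev (W y)
    = Pool.Agent.H81.HD.q12 (fun q : ℝ × ℝ => mev q.1 q.2 LQ) 13 y := by
  rw [sub_zero' i_Q12]
  simp only [sQ12, Ex.ev, v_rho, w16, w17, w24, w25, w26, w27, w28, w29,
    Pool.Agent.H81.HD.q12, D1_mev, D2_mev]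
  push_cast; ring

theorem v_Q22 : Q22.ev (W y)
    = Pool.Agent.H81.HD.q22 (fun q : ℝ × ℝ => mev q.1 q.2 LQ) 13 y := by
  rw [sub_zero' i_Q22]
  simp only [sQ22, Ex.ev, v_rho, w16, w17, w24, w25, w26, w27, w28, w29,
    Pool.Agent.H81.HD.q22, D1_mev, D2_mev]
  push_cast; ring

end values

theorem cert : Cert (fun y => P3 (pt y)) (fun y => Q3 (pt y)) 12 13 4096 := by
  rw [P3_pt, Q3_pt]
  have key : ∀ y ∈ KK, _ := fun y hy => by
    have h := good_W y hy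
    rw [v_A11, v_A12, v_A22, v_G1, v_G2, v_QQ, v_RH, v_Q11, v_Q12, v_Q22] at h
    exact h
  have hc : (4096 : ℝ) ^ 2 = 16777216 := by norm_num
  refine ⟨fun y hy h => ?_, fun y hy h0 h => ?_, fun y hy h0 h => ?_⟩
  · rw [hc] at h
    exact (key y hy).core h
  · rw [hc] at h
    exact (key y hy).pos h0 h
  · rw [hc] at h
    exact (key y hy).neg h0 h

/-- **HEDGE-A**: the data for `S_MAIN`. -/
theorem hedge_A : ∃ (P3 Q3 : V3 → ℝ) (m N : ℕ) (c0 : ℝ), ContDiff ℝ ∞ P3 ∧ ContDiff ℝ ∞ Q3 ∧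
    Odd N ∧ 0 < c0 ∧ (∀ (t : ℝ) x, P3 (t • x) = t ^ (2 * m + 1) * P3 x) ∧
    (∀ (t : ℝ) x, Q3 (t • x) = t ^ N * Q3 x) ∧ (∀ x, P3 (cyc x) = P3 x) ∧
    (∀ x, Q3 (cyc x) = Q3 x) ∧ Cert (fun y => P3 (pt y)) (fun y => Q3 (pt y)) m N c0 :=
  ⟨P3, Q3, 12, 13, 4096, P3_contDiff, Q3_contDiff, ⟨6, rfl⟩, by norm_num, P3_smul, Q3_smul,
    P3_cyc, Q3_cyc, cert⟩

end H60Hg
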