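import Pool.Agent.H60.Hg.Leaf
import Pool.Agent.H60.Hg.Lists

/-! Polynomials given by lists of monomials, derivatives, and kernel proofs of identities. -/

open Polynomial Finset

namespace H60Hg

open H60Box

/-- `∑ c x^i y^j` -/
def mev {R : Type*} [CommRing R] (x y : R) : List (ℕ × ℕ × ℤ) → R
  | [] => 0
  | t :: L => (t.2.2 : R) * x ^ t.1 * y ^ t.2.1 + mev x y L

def dX : List (ℕ × ℕ × ℤ) → List (ℕ × ℕ × ℤ)
  | [] => []
  | t :: L => (t.1 - 1, t.2.1, (t.1 : ℤ) * t.2.2) :: dX L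

def dY : List (ℕ × ℕ × ℤ) → List (ℕ × ℕ × ℤ)
  | [] => []
  | t :: L => (t.1, t.2.1 - 1, (t.2.1 : ℤ) * t.2.2) :: dY L

theorem hasFDerivAt_mev (L : List (ℕ × ℕ × ℤ)) (p : ℝ × ℝ) :
    HasFDerivAt (fun q : ℝ × ℝ => mev q.1 q.2 L)
      (mev p.1 p.2 (dX L) • ContinuousLinearMap.fst ℝ ℝ ℝ
        + mev p.1 p.2 (dY L) • ContinuousLinearMap.snd ℝ ℝ ℝ) p := by
  induction L with
  | nil =>
    simp only [mev, dX, dY, zero_smul, add_zero]
    exact hasFDerivAt_const _ _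
  | cons t L ih =>
    have h1 : HasFDerivAt (fun q : ℝ × ℝ => q.1) (ContinuousLinearMap.fst ℝ ℝ ℝ) p :=
      hasFDerivAt_fst
    have h2 : HasFDerivAt (fun q : ℝ × ℝ => q.2) (ContinuousLinearMap.snd ℝ ℝ ℝ) p :=
      hasFDerivAt_snd
    have h3 := (((h1.pow t.1).const_mul (t.2.2 : ℝ)).mul (h2.pow t.2.1)).add ih
    refine h3.congr_fderiv ?_
    ext <;> simp [mev, dX, dY] <;> ring

theorem map_mev {R S : Type*} [CommRing R] [CommRing S] (φ : R →+* S) (x y : R)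
    (L : List (ℕ × ℕ × ℤ)) : φ (mev x y L) = mev (φ x) (φ y) L := by
  induction L with
  | nil => simp [mev]
  | cons t L ih => simp [mev, ih]

/-! ### three variables -/

/-- `∑ c (x^i y^j z^k + y^i z^j x^k + z^i x^j y^k)` -/
def S3 (x y z : ℝ) : List (ℕ × ℕ × ℕ × ℤ) → ℝ
  | [] => 0
  | t :: L => (t.2.2.2 : ℝ) * (x ^ t.1 * y ^ t.2.1 * z ^ t.2.2.1 + y ^ t.1 * z ^ t.2.1 * x ^ t.2.2.1
      + z ^ t.1 * x ^ t.2.1 * y ^ t.2.2.1) + S3 x y z L

def expL : List (ℕ × ℕ × ℕ × ℤ) → List (ℕ × ℕ × ℤ)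
  | [] => []
  | t :: L => (t.1, t.2.1, t.2.2.2) :: (t.2.2.1, t.1, t.2.2.2) :: (t.2.1, t.2.2.1, t.2.2.2) :: expL L

theorem S3_one (x y : ℝ) (L : List (ℕ × ℕ × ℕ × ℤ)) : S3 x y 1 L = mev x y (expL L) := by
  induction L with
  | nil => rfl
  | cons t L ih => simp only [S3, expL, mev, ih, one_pow]; ring

theorem S3_cyc (x y z : ℝ) (L : List (ℕ × ℕ × ℕ × ℤ)) : S3 y z x L = S3 x y z L := by
  induction L with
  | nil => rfl
  | cons t L ih => simp only [S3, ih]; ring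

def homOK (M : ℕ) : List (ℕ × ℕ × ℕ × ℤ) → Bool
  | [] => true
  | t :: L => Nat.beq (t.1 + t.2.1 + t.2.2.1) M && homOK M L

theorem S3_hom (M : ℕ) (s x y z : ℝ) (L : List (ℕ × ℕ × ℕ × ℤ)) (h : homOK M L = true) :
    S3 (s * x) (s * y) (s * z) L = s ^ M * S3 x y z L := by
  induction L with
  | nil => simp [S3]
  | cons t L ih =>
    simp only [homOK, Bool.and_eq_true] at h
    have h1 : t.1 + t.2.1 + t.2.2.1 = M := Nat.eq_of_beq_eq_true h.1
    simp only [S3, ih h.2]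
    rw [← h1, pow_add, pow_add]
    ring

theorem S3_contDiff {E : Type*} [NormedAddCommGroup E] [NormedSpace ℝ E] {f g h : E → ℝ}
    {n : WithTop ℕ∞} (hf : ContDiff ℝ n f) (hg : ContDiff ℝ n g) (hh : ContDiff ℝ n h)
    (L : List (ℕ × ℕ × ℕ × ℤ)) : ContDiff ℝ n (fun x => S3 (f x) (g x) (h x) L) := by
  induction L with
  | nil => exact contDiff_const
  | cons t L ih =>
    simp only [S3]
    exact (contDiff_const.mul (((((hf.pow _).mul (hg.pow _)).mul (hh.pow _)).add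
      (((hg.pow _).mul (hh.pow _)).mul (hf.pow _))).add
      (((hh.pow _).mul (hf.pow _)).mul (hg.pow _)))).add ih

/-! ### representability -/

/-- `∑ |c| 3^i 3^j` -/
def mB : List (ℕ × ℕ × ℤ) → ℕ
  | [] => 0
  | t :: L => t.2.2.natAbs * 3 ^ t.1 * 3 ^ t.2.1 + mB L

def mok (n : ℕ) : List (ℕ × ℕ × ℤ) → Bool
  | [] => true
  | t :: L => Nat.ble t.1 n && (Nat.ble t.2.1 n && mok n L)

/-- `2 X - 1` in the two variables -/
noncomputable def xS : ℤ[X][X] := 2 * C X - 1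
noncomputable def yS : ℤ[X][X] := 2 * X - 1

theorem rep_xS : Rep xS 1 0 3 := by
  have h1 := (((Rep.natCast 2).mul Rep.inn).mono (a' := 1) (b' := 0) (by omega) (by omega) le_rfl).sub
    ((Rep.natCast 1).mono (Nat.zero_le 1) (Nat.zero_le 0) le_rfl)
  simpa [xS] using h1

theorem rep_yS : Rep yS 0 1 3 := by
  have h1 := (((Rep.natCast 2).mul Rep.out).mono (a' := 0) (b' := 1) (by omega) (by omega) le_rfl).sub
    ((Rep.natCast 1).mono (Nat.zero_le 0) (Nat.zero_le 1) le_rfl)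
  simpa [yS] using h1

theorem rep_mev (n : ℕ) (L : List (ℕ × ℕ × ℤ)) (h : mok n L = true) :
    Rep (mev xS yS L) n n (mB L) := by
  induction L with
  | nil => simpa [mev, mB] using (Rep.natCast 0).mono (Nat.zero_le n) (Nat.zero_le n) le_rfl
  | cons t L ih =>
    simp only [mok, Bool.and_eq_true] at h
    have h1 := Nat.le_of_ble_eq_true h.1
    have h2 := Nat.le_of_ble_eq_true h.2.1
    simp only [mev, mB]
    exact ((((Rep.intCast t.2.2).mul (rep_xS.pow t.1)).mul (rep_yS.pow t.2.1)).mono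
      (by omega) (by omega) le_rfl).add (ih h.2.2)

/-! ### the combined table -/

variable (bt : BT) (src : ℕ → List (ℕ × ℕ × ℤ)) (sn : ℕ → ℕ)

/-- base functions: `k < 16` from the table, the others from the source lists -/
def allV {R : Type*} [CommRing R] (X Y x y : R) (k : ℕ) : R :=
  bif Nat.blt k 16 then bt.val X Y k else mev x y (src (k - 16))

def allN (k : ℕ) : ℕ := bif Nat.blt k 16 then bt.nn k else sn (k - 16)

def allB (k : ℕ) : ℕ := bif Nat.blt k 16 then bt.bb k else mB (src (k - 16))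

theorem hev_one {R : Type*} [CommRing R] (nn : ℕ → ℕ) (v : ℕ → R) (e : Ex) :
    e.hev nn v 1 = e.ev v := by
  induction e with
  | b k => rfl
  | c m => rfl
  | add e f ihe ihf => simp [Ex.hev, Ex.ev, ihe, ihf]
  | sub e f ihe ihf => simp [Ex.hev, Ex.ev, ihe, ihf]
  | mul e f ihe ihf => simp [Ex.hev, Ex.ev, ihe, ihf]
  | pow e k ih => simp [Ex.hev, Ex.ev, ih]

theorem rep_pv (n S : ℕ) (rows : List (List ℕ)) (hS : gsum rows ≤ S) :
    Rep (pv rows n (C X : ℤ[X][X]) X) n n S := by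
  have h1 := Rep.gval_gTl (x := (C X : ℤ[X][X])) (u := 1) (y := (X : ℤ[X][X])) (v := 1)
    (Mx := 1) (U := 1) (My := 1) (V := 1) Rep.inn
    (by simpa using (Rep.natCast 1).mono (Nat.zero_le 1) (Nat.zero_le 0) le_rfl) Rep.out
    (by simpa using (Rep.natCast 1).mono (Nat.zero_le 0) (Nat.zero_le 1) le_rfl) rows n
  refine h1.mono le_rfl le_rfl ?_
  have h2 := gval_le rows (gTl 1 1 n) (gTl 1 1 n) (1 ^ n) (1 ^ n)
    (gT_le _ _ _ n (n + 1) 0 le_rfl le_rfl (by omega))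
    (gT_le _ _ _ n (n + 1) 0 le_rfl le_rfl (by omega))
  refine h2.trans ?_
  simpa using hS

theorem eq_zero_of_eval {G : ℤ[X][X]} {a b B N : ℕ} (hG : Rep G a b B) (hB : B < 2 ^ N)
    (h : evr ((2 : ℤ) ^ (N + 1)) (((2 : ℤ) ^ (N + 1)) ^ (a + 1)) G = 0) : G = 0 := by
  have h1 := coeff_nonneg hG hB (by rw [h, zero_add, Int.toNat_natCast, Nat.and_self])
  have h2 := coeff_nonneg hG.neg hB (by
    rw [map_neg, h, neg_zero, zero_add, Int.toNat_natCast, Nat.and_self])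
  ext l k
  have h3 := h1 l k
  have h4 := h2 l k
  rw [coeff_neg, coeff_neg] at h4
  rw [coeff_zero, coeff_zero]
  omega

/-! ### kernel check of an identity -/

noncomputable section

/-- value of a monomial list at natural numbers, accumulator version -/
def kmev (x y : ℕ) (L : List (ℕ × ℕ × ℤ)) : ℤ → ℤ :=
  List.rec (fun acc => acc) (fun t _ ih acc => kseqI (Int.add acc
    (kI2 Int.mul t.2.2 (Int.ofNat (Nat.mul (Nat.pow x t.1) (Nat.pow y t.2.1))))) ih) L

/-- values of the base functions at `X = 2^N`, `Y = 2^M` -/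
def kallV (N M : ℕ) (k : ℕ) : ℤ :=
  Bool.rec (kmev (Nat.sub (Nat.pow 2 (Nat.succ N)) 1) (Nat.sub (Nat.pow 2 (Nat.succ M)) 1)
      (src (k - 16)) 0)
    (Int.ofNat (kval (bt.rr k) (kTl (Nat.pow 2 N) 1 (bt.nn k)) (kTl (Nat.pow 2 M) 1 (bt.nn k))))
    (Nat.blt k 16)

def kisz (z : ℤ) : Bool := Int.rec (fun n => Nat.beq n 0) (fun _ => false) z

def kid (e : Ex) : Bool :=
  kseq (e.kdeg (allN bt sn)) (fun f => kseq (e.kbd (allN bt sn) (allB bt src) 1) (fun bd =>
    kseq (Nat.succ (Nat.log2 bd)) (fun N =>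
      kseq (Nat.mul (Nat.succ N) (Nat.succ f)) (fun M =>
      and (Nat.ble (Nat.succ bd) (Nat.pow 2 N))
        (kseqI (e.khev (allN bt sn) (kallV bt src (Nat.succ N) M) 1) kisz)))))

end

theorem kmev_eq (x y : ℕ) (L : List (ℕ × ℕ × ℤ)) (acc : ℤ) :
    kmev x y L acc = acc + mev (x : ℤ) (y : ℤ) L := by
  induction L generalizing acc with
  | nil => simp [mev]; rfl
  | cons t L ih =>
    show kseqI (Int.add acc (kI2 Int.mul t.2.2
      (Int.ofNat (Nat.mul (Nat.pow x t.1) (Nat.pow y t.2.1))))) (kmev x y L) = _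
    rw [kseqI_eq, kI2_eq, ih]
    show acc + t.2.2 * ((x ^ t.1 * y ^ t.2.1 : ℕ) : ℤ) + mev (x : ℤ) y L = _
    simp only [mev, Int.cast_id]
    push_cast
    ring

theorem kisz_eq {z : ℤ} (h : kisz z = true) : z = 0 := by
  cases z with
  | ofNat n =>
    have h1 : Nat.beq n 0 = true := h
    have h2 := Nat.eq_of_beq_eq_true h1
    rw [h2]; rfl
  | negSucc n => exact absurd h (by show ¬(false = true); simp)

theorem kallV_eq (N M k : ℕ) : kallV bt src N M k
    = allV bt src ((2 : ℤ) ^ N) ((2 : ℤ) ^ M) (2 * 2 ^ N - 1) (2 * 2 ^ M - 1) k := by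
  unfold kallV allV
  rcases hb : Nat.blt k 16 with _ | _
  · show kmev (2 ^ (N + 1) - 1) (2 ^ (M + 1) - 1) (src (k - 16)) 0 = mev _ _ (src (k - 16))
    rw [kmev_eq, zero_add]
    have h1 : ∀ N : ℕ, ((2 ^ (N + 1) - 1 : ℕ) : ℤ) = 2 * 2 ^ N - 1 := by
      intro N
      rw [Nat.cast_sub Nat.one_le_two_pow]
      push_cast
      ring
    rw [h1, h1]
  · show ((kval (bt.rr k) (kTl (2 ^ N) 1 (bt.nn k)) (kTl (2 ^ M) 1 (bt.nn k)) : ℕ) : ℤ)
      = bt.val _ _ k
    rw [kval_eq, kTl_eq, kTl_eq, BT.val, pv, ← Nat.coe_castRingHom, map_gval, map_gTl, map_gTl]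
    simp only [Nat.coe_castRingHom]
    push_cast
    rfl

theorem evr_xS {R : Type*} [CommRing R] (z w : R) : evr z w xS = 2 * z - 1 := by
  rw [xS, map_sub, map_mul, map_ofNat, map_one, evr_inn]

theorem evr_yS {R : Type*} [CommRing R] (z w : R) : evr z w yS = 2 * w - 1 := by
  rw [yS, map_sub, map_mul, map_ofNat, map_one, evr_out]

theorem evr_allV {R : Type*} [CommRing R] (z w : R) (k : ℕ) :
    evr z w (allV bt src (C X) X xS yS k) = allV bt src z w (2 * z - 1) (2 * w - 1) k := by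
  unfold allV
  rcases hb : Nat.blt k 16 with _ | _
  · simp only [cond_false]
    rw [map_mev, evr_xS, evr_yS]
  · simp only [cond_true]
    rw [BT.val, map_pv, evr_inn, evr_out]
    rfl

theorem ident (hbt : bt.Valid) (hsrc : ∀ k, mok (sn k) (src k) = true) {e : Ex}
    (h : kid bt src sn e = true) (x y : ℝ) :
    e.ev (allV bt src x y (2 * x - 1) (2 * y - 1)) = 0 := by
  unfold kid at h
  rw [kseq_eq, kseq_eq, kseq_eq, kseq_eq, Bool.and_eq_true, kseqI_eq] at h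
  obtain ⟨h2, h3⟩ := h
  have h2' := Nat.le_of_ble_eq_true h2
  rw [e.kbd_eq] at h2' h3
  rw [e.kdeg_eq] at h3
  set bd := e.bd (allN bt sn) (allB bt src) 1 with hbd
  set N := Nat.succ (Nat.log2 bd) with hN
  set f := e.deg (allN bt sn) with hf
  set v : ℕ → ℤ[X][X] := allV bt src (C X) X xS yS with hv
  have hrep : Rep (e.hev (allN bt sn) v 1) f f bd := by
    refine Ex.rep_hev (fun k => ?_) ?_ e
    · rw [hv]
      unfold allV allN allB
      rcases hb : Nat.blt k 16 with _ | _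
      · exact rep_mev _ _ (hsrc _)
      · exact rep_pv _ _ _ (hbt.hb k)
    · simpa using (Rep.natCast 1).mono (Nat.zero_le 1) (Nat.zero_le 1) le_rfl
  rw [hev_one] at hrep
  have hW : ((2 : ℤ) ^ (N + 1)) ^ (f + 1) = 2 ^ (Nat.mul (Nat.succ N) (Nat.succ f)) := by
    rw [← pow_mul]; rfl
  have hVal : evr ((2 : ℤ) ^ (N + 1)) (((2 : ℤ) ^ (N + 1)) ^ (f + 1)) (e.ev v) = 0 := by
    rw [Ex.map_ev, hW]
    have h4 := kisz_eq h3
    rw [Ex.khev_eq, Nat.cast_one, hev_one] at h4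
    rw [← h4]
    congr 1
    funext k
    rw [kallV_eq, hv, evr_allV]
  have hG := eq_zero_of_eval hrep h2' hVal
  have h5 : evr x y (e.ev v) = 0 := by rw [hG, map_zero]
  rw [Ex.map_ev] at h5
  rw [← h5]
  congr 1
  funext k
  rw [hv, evr_allV]

end H60Hg
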