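import Pool.Agent.H60.Hg.Mev
import Pool.Agent.H60.Hg.Good

/-! The identities between the tables and the polynomials. -/

namespace H60Hg

open Ex

set_option maxRecDepth 100000

def LP : List (ℕ × ℕ × ℤ) := expL LP3
def LQ : List (ℕ × ℕ × ℤ) := expL LQ3

/-- the source lists: `x, y, P, P_x, P_y, P_xx, P_xy, P_yy, Q, Q_x, Q_y, Q_xx, Q_xy, Q_yy` -/
def srcL : ℕ → List (ℕ × ℕ × ℤ)
  | 0 => [(1, 0, 1)]
  | 1 => [(0, 1, 1)]
  | 2 => LP
  | 3 => dX LP
  | 4 => dY LP
  | 5 => dX (dX LP)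
  | 6 => dY (dX LP)
  | 7 => dY (dY LP)
  | 8 => LQ
  | 9 => dX LQ
  | 10 => dY LQ
  | 11 => dX (dX LQ)
  | 12 => dY (dX LQ)
  | 13 => dY (dY LQ)
  | _ => []

def srcN : ℕ → ℕ
  | 0 => 1
  | 1 => 1
  | 2 => 25
  | 3 => 25
  | 4 => 25
  | 5 => 25
  | 6 => 25
  | 7 => 25
  | 8 => 13
  | 9 => 13
  | 10 => 13
  | 11 => 13
  | 12 => 13
  | 13 => 13
  | _ => 0

theorem src_ok (k : ℕ) : mok (srcN k) (srcL k) = true := by
  rcases k with _ | _ | _ | _ | _ | _ | _ | _ | _ | _ | _ | _ | _ | _ | k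
  · decide +kernel
  · decide +kernel
  · decide +kernel
  · decide +kernel
  · decide +kernel
  · decide +kernel
  · decide +kernel
  · decide +kernel
  · decide +kernel
  · decide +kernel
  · decide +kernel
  · decide +kernel
  · decide +kernel
  · decide +kernel
  · rfl

def rhoE : Ex := add (add (c 1) (pow (b 16) 2)) (pow (b 17) 2)

def sA11 : Ex := add (sub (mul (pow rhoE 2) (b 21)) (mul (mul (mul (c 48) (b 16)) rhoE) (b 19)))
  (mul (b 18) (sub (mul (c 624) (pow (b 16) 2)) (mul (c 24) rhoE)))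
def sA12 : Ex := add (sub (mul (pow rhoE 2) (b 22)) (mul (mul (c 24) rhoE)
  (add (mul (b 16) (b 20)) (mul (b 17) (b 19))))) (mul (b 18) (mul (mul (c 624) (b 16)) (b 17)))
def sA22 : Ex := add (sub (mul (pow rhoE 2) (b 23)) (mul (mul (mul (c 48) (b 17)) rhoE) (b 20)))
  (mul (b 18) (sub (mul (c 624) (pow (b 17) 2)) (mul (c 24) rhoE)))
def sG1 : Ex := sub (mul rhoE (b 25)) (mul (mul (c 13) (b 16)) (b 24))
def sG2 : Ex := sub (mul rhoE (b 26)) (mul (mul (c 13) (b 17)) (b 24))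
def sQ11 : Ex := add (sub (mul (pow rhoE 2) (b 27)) (mul (mul (mul (c 26) (b 16)) rhoE) (b 25)))
  (mul (b 24) (sub (mul (c 195) (pow (b 16) 2)) (mul (c 13) rhoE)))
def sQ12 : Ex := add (sub (mul (pow rhoE 2) (b 28)) (mul (mul (c 13) rhoE)
  (add (mul (b 16) (b 26)) (mul (b 17) (b 25))))) (mul (b 24) (mul (mul (c 195) (b 16)) (b 17)))
def sQ22 : Ex := add (sub (mul (pow rhoE 2) (b 29)) (mul (mul (mul (c 26) (b 17)) rhoE) (b 26)))
  (mul (b 24) (sub (mul (c 195) (pow (b 17) 2)) (mul (c 13) rhoE)))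

theorem i_A11 : kid bt srcL srcN (sub A11 sA11) = true := by decide +kernel
theorem i_A12 : kid bt srcL srcN (sub A12 sA12) = true := by decide +kernel
theorem i_A22 : kid bt srcL srcN (sub A22 sA22) = true := by decide +kernel
theorem i_G1 : kid bt srcL srcN (sub G1 sG1) = true := by decide +kernel
theorem i_G2 : kid bt srcL srcN (sub G2 sG2) = true := by decide +kernel
theorem i_QQ : kid bt srcL srcN (sub QQ (b 24)) = true := by decide +kernel
theorem i_RH : kid bt srcL srcN (sub RH rhoE) = true := by decide +kernel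
theorem i_Q11 : kid bt srcL srcN (sub Q11 sQ11) = true := by decide +kernel
theorem i_Q12 : kid bt srcL srcN (sub Q12 sQ12) = true := by decide +kernel
theorem i_Q22 : kid bt srcL srcN (sub Q22 sQ22) = true := by decide +kernel

end H60Hg
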